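import Mathlib

set_option autoImplicit false

namespace Pool.Agent.H14.AlgSeries

open PowerSeries Polynomial

/-- Algebraic over `ℤ[x]`. -/
def Alg (R : ℤ⟦X⟧) : Prop := IsAlgebraic ℤ[X] R

/-- Rational power series. -/
def Ratl (R : ℤ⟦X⟧) : Prop := ∃ p q : ℤ[X], q ≠ 0 ∧ (q : ℤ⟦X⟧) * R = (p : ℤ⟦X⟧)

/-- Hadamard product with a weight. -/
noncomputable def had (w : ℕ → ℤ) (R : ℤ⟦X⟧) : ℤ⟦X⟧ := PowerSeries.mk fun n => w n * coeff n R

@[simp] theorem coeff_had (w : ℕ → ℤ) (R : ℤ⟦X⟧) (n : ℕ) : coeff n (had w R) = w n * coeff n R := by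
  simp [had]

theorem coe_injective : Function.Injective (fun p : ℤ[X] => (p : ℤ⟦X⟧)) :=
  Polynomial.coe_injective ℤ

theorem coe_ne_zero {p : ℤ[X]} (hp : p ≠ 0) : (p : ℤ⟦X⟧) ≠ 0 := by
  intro h
  exact hp (coe_injective (by simpa using h))

/-! ### Rational series -/

theorem Ratl.add {R S : ℤ⟦X⟧} (hR : Ratl R) (hS : Ratl S) : Ratl (R + S) := by
  obtain ⟨p, q, hq, h⟩ := hR
  obtain ⟨p', q', hq', h'⟩ := hS
  refine ⟨q' * p + q * p', q * q', mul_ne_zero hq hq', ?_⟩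
  push_cast
  linear_combination (q' : ℤ⟦X⟧) * h + (q : ℤ⟦X⟧) * h'

theorem Ratl.neg {R : ℤ⟦X⟧} (hR : Ratl R) : Ratl (-R) := by
  obtain ⟨p, q, hq, h⟩ := hR
  refine ⟨-p, q, hq, ?_⟩
  push_cast
  linear_combination - h

theorem ratl_coe (f : ℤ[X]) : Ratl (f : ℤ⟦X⟧) := ⟨f, 1, one_ne_zero, by simp⟩

theorem ratl_zero : Ratl 0 := ⟨0, 1, one_ne_zero, by simp⟩

theorem Ratl.mul {R S : ℤ⟦X⟧} (hR : Ratl R) (hS : Ratl S) : Ratl (R * S) := by
  obtain ⟨p, q, hq, h⟩ := hR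
  obtain ⟨p', q', hq', h'⟩ := hS
  refine ⟨p * p', q * q', mul_ne_zero hq hq', ?_⟩
  push_cast
  linear_combination (p' : ℤ⟦X⟧) * h + (q : ℤ⟦X⟧) * R * h'

theorem Ratl.sub {R S : ℤ⟦X⟧} (hR : Ratl R) (hS : Ratl S) : Ratl (R - S) := by
  rw [sub_eq_add_neg]; exact hR.add hS.neg

theorem Ratl.sum {ι : Type*} (s : Finset ι) (f : ι → ℤ⟦X⟧) (h : ∀ i ∈ s, Ratl (f i)) :
    Ratl (∑ i ∈ s, f i) := by
  classical
  induction s using Finset.induction_on with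
  | empty => simpa using ratl_zero
  | insert a s ha ih =>
    rw [Finset.sum_insert ha]
    exact (h a (Finset.mem_insert_self _ _)).add (ih fun i hi => h i (Finset.mem_insert_of_mem hi))

/-- Divide out a nonzero factor. -/
theorem Ratl.of_mul {c : ℤ[X]} (hc : c ≠ 0) {R : ℤ⟦X⟧} (h : Ratl ((c : ℤ⟦X⟧) * R)) : Ratl R := by
  obtain ⟨p, q, hq, h⟩ := h
  refine ⟨p, q * c, mul_ne_zero hq hc, ?_⟩
  push_cast
  rw [← h]; ring

theorem Ratl.alg {R : ℤ⟦X⟧} (h : Ratl R) : Alg R := by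
  obtain ⟨p, q, hq, h⟩ := h
  refine ⟨Polynomial.C q * Polynomial.X - Polynomial.C p, ?_, ?_⟩
  · intro h0
    have := congrArg (fun f => f.coeff 1) h0
    simp at this
    exact hq this
  · simp only [map_sub, map_mul, Polynomial.aeval_C, Polynomial.aeval_X]
    rw [show (algebraMap ℤ[X] ℤ⟦X⟧) q = (q : ℤ⟦X⟧) from by
        simp [PowerSeries.algebraMap_apply'],
      show (algebraMap ℤ[X] ℤ⟦X⟧) p = (p : ℤ⟦X⟧) from by
        simp [PowerSeries.algebraMap_apply'], h, sub_self]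

/-! ### Algebraic series -/

theorem algebraMap_eq (q : ℤ[X]) : (algebraMap ℤ[X] ℤ⟦X⟧) q = (q : ℤ⟦X⟧) := by
  simp [PowerSeries.algebraMap_apply']

theorem Alg.add {R S : ℤ⟦X⟧} (hR : Alg R) (hS : Alg S) : Alg (R + S) := IsAlgebraic.add hR hS
theorem Alg.mul {R S : ℤ⟦X⟧} (hR : Alg R) (hS : Alg S) : Alg (R * S) := IsAlgebraic.mul hR hS
theorem Alg.neg {R : ℤ⟦X⟧} (hR : Alg R) : Alg (-R) := IsAlgebraic.neg hR
theorem Alg.sub {R S : ℤ⟦X⟧} (hR : Alg R) (hS : Alg S) : Alg (R - S) := IsAlgebraic.sub hR hS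

theorem alg_zero : Alg 0 := ratl_zero.alg

theorem Alg.sum {ι : Type*} (s : Finset ι) (f : ι → ℤ⟦X⟧) (h : ∀ i ∈ s, Alg (f i)) :
    Alg (∑ i ∈ s, f i) := by
  classical
  induction s using Finset.induction_on with
  | empty => simpa using alg_zero
  | insert a s ha ih =>
    rw [Finset.sum_insert ha]
    exact (h a (Finset.mem_insert_self _ _)).add (ih fun i hi => h i (Finset.mem_insert_of_mem hi))

theorem Alg.of_mul {c : ℤ[X]} (hc : c ≠ 0) {R : ℤ⟦X⟧} (h : Alg ((c : ℤ⟦X⟧) * R)) : Alg R :=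
  IsAlgebraic.of_mul (mem_nonZeroDivisors_of_ne_zero (coe_ne_zero hc)) (ratl_coe c).alg h

end Pool.Agent.H14.AlgSeries
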