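import Pool.Agent.H14.AlgSeries

set_option autoImplicit false

namespace Pool.Agent.H14.AlgSeries

open PowerSeries Polynomial

/-- An algebraic closure of `ℚ`. -/
abbrev Om : Type := AlgebraicClosure ℚ

/-- the embedding of `ℤ⟦x⟧` in `Ω⟦x⟧` -/
noncomputable def io : ℤ⟦X⟧ →+* Om⟦X⟧ := PowerSeries.map (Int.castRingHom Om)

theorem coeff_io (R : ℤ⟦X⟧) (n : ℕ) :
    PowerSeries.coeff n (io R) = ((PowerSeries.coeff n R : ℤ) : Om) := by
  simp [io]

theorem io_injective : Function.Injective io := by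
  intro a b h
  ext n
  have := congrArg (PowerSeries.coeff n) h
  rw [coeff_io, coeff_io] at this
  exact_mod_cast this

/-- Algebraic over `Ω(x)`. -/
def AlgO (f : Om⟦X⟧) : Prop := IsAlgebraic Om[X] f

/-- Rational over `Ω`. -/
def RatlO (f : Om⟦X⟧) : Prop := ∃ p q : Om[X], q ≠ 0 ∧ (q : Om⟦X⟧) * f = (p : Om⟦X⟧)

theorem algebraMapO_eq (q : Om[X]) : (algebraMap Om[X] Om⟦X⟧) q = (q : Om⟦X⟧) := by
  simp [PowerSeries.algebraMap_apply']

theorem io_coe (q : ℤ[X]) : io (q : ℤ⟦X⟧) = ((q.map (Int.castRingHom Om) : Om[X]) : Om⟦X⟧) := by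
  ext n
  rw [coeff_io]; simp

theorem Alg.io {R : ℤ⟦X⟧} (h : Alg R) : AlgO (io R) := by
  refine IsAlgebraic.ringHom_of_comp_eq (Polynomial.mapRingHom (Int.castRingHom Om)) AlgSeries.io h ?_ ?_
  · rw [Polynomial.coe_mapRingHom]
    exact Polynomial.map_injective _ (RingHom.injective_int _)
  · refine RingHom.ext fun q => ?_
    simp only [RingHom.comp_apply, Polynomial.coe_mapRingHom, RingHom.coe_coe]
    rw [algebraMapO_eq, algebraMap_eq, io_coe]

theorem Ratl.io {R : ℤ⟦X⟧} (h : Ratl R) : RatlO (io R) := by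
  obtain ⟨p, q, hq, h⟩ := h
  refine ⟨p.map (Int.castRingHom Om), q.map (Int.castRingHom Om), ?_, ?_⟩
  · exact (Polynomial.map_ne_zero_iff (RingHom.injective_int _)).2 hq
  · rw [← io_coe, ← io_coe, ← map_mul, h]

theorem rescale_coe (a : Om) (q : Om[X]) :
    rescale a (q : Om⟦X⟧) = ((q.comp (Polynomial.C a * Polynomial.X) : Om[X]) : Om⟦X⟧) := by
  ext n
  rw [coeff_rescale, Polynomial.coeff_coe, Polynomial.coeff_coe, Polynomial.comp_C_mul_X_coeff,
    mul_comm]

theorem comp_ne_zero {a : Om} (ha : a ≠ 0) {q : Om[X]} (hq : q ≠ 0) :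
    q.comp (Polynomial.C a * Polynomial.X) ≠ 0 := by
  intro h
  exact hq ((Polynomial.comp_C_mul_X_eq_zero_iff (mem_nonZeroDivisors_of_ne_zero ha)).1 h)

theorem AlgO.rescale {f : Om⟦X⟧} (h : AlgO f) {a : Om} (ha : a ≠ 0) :
    AlgO (PowerSeries.rescale a f) := by
  refine IsAlgebraic.ringHom_of_comp_eq
    (Polynomial.compRingHom (Polynomial.C a * Polynomial.X)) (PowerSeries.rescale a) h ?_ ?_
  · rw [injective_iff_map_eq_zero]
    intro q hq
    by_contra h0
    exact comp_ne_zero ha h0 hq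
  · refine RingHom.ext fun q => ?_
    simp only [RingHom.comp_apply, RingHom.coe_coe]
    rw [algebraMapO_eq, algebraMapO_eq, rescale_coe]
    rfl

theorem RatlO.rescale {f : Om⟦X⟧} (h : RatlO f) {a : Om} (ha : a ≠ 0) :
    RatlO (PowerSeries.rescale a f) := by
  obtain ⟨p, q, hq, h⟩ := h
  refine ⟨p.comp (Polynomial.C a * Polynomial.X), q.comp (Polynomial.C a * Polynomial.X),
    comp_ne_zero ha hq, ?_⟩
  rw [← rescale_coe, ← map_mul, h, rescale_coe]

theorem AlgO.C_mul {f : Om⟦X⟧} (h : AlgO f) (a : Om) : AlgO (PowerSeries.C a * f) := by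
  refine IsAlgebraic.mul ?_ h
  have : (PowerSeries.C a : Om⟦X⟧) = algebraMap Om[X] Om⟦X⟧ (Polynomial.C a) := by
    rw [algebraMapO_eq]; simp
  rw [this]
  exact isAlgebraic_algebraMap _

theorem RatlO.C_mul {f : Om⟦X⟧} (h : RatlO f) (a : Om) : RatlO (PowerSeries.C a * f) := by
  obtain ⟨p, q, hq, h⟩ := h
  refine ⟨Polynomial.C a * p, q, hq, ?_⟩
  rw [Polynomial.coe_mul, Polynomial.coe_C, ← h]; ring

theorem RatlO.add {f g : Om⟦X⟧} (hf : RatlO f) (hg : RatlO g) : RatlO (f + g) := by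
  obtain ⟨p, q, hq, h⟩ := hf
  obtain ⟨p', q', hq', h'⟩ := hg
  refine ⟨q' * p + q * p', q * q', mul_ne_zero hq hq', ?_⟩
  push_cast
  linear_combination (q' : Om⟦X⟧) * h + (q : Om⟦X⟧) * h'

theorem algO_sum {ι : Type*} (s : Finset ι) (f : ι → Om⟦X⟧) (h : ∀ i ∈ s, AlgO (f i)) :
    AlgO (∑ i ∈ s, f i) := by
  classical
  induction s using Finset.induction_on with
  | empty =>
    rw [Finset.sum_empty]
    exact isAlgebraic_zero
  | insert a s ha ih =>
    rw [Finset.sum_insert ha]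
    exact IsAlgebraic.add (h a (Finset.mem_insert_self _ _))
      (ih fun i hi => h i (Finset.mem_insert_of_mem hi))

theorem ratlO_sum {ι : Type*} (s : Finset ι) (f : ι → Om⟦X⟧) (h : ∀ i ∈ s, RatlO (f i)) :
    RatlO (∑ i ∈ s, f i) := by
  classical
  induction s using Finset.induction_on with
  | empty => exact ⟨0, 1, one_ne_zero, by simp⟩
  | insert a s ha ih =>
    rw [Finset.sum_insert ha]
    exact RatlO.add (h a (Finset.mem_insert_self _ _))
      (ih fun i hi => h i (Finset.mem_insert_of_mem hi))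

theorem isAlgebraic_Om : Algebra.IsAlgebraic ℤ Om := by
  have h : @Algebra.IsAlgebraic ℚ Om _ _ (AlgebraicClosure.instAlgebra ℚ) :=
    AlgebraicClosure.isAlgebraic ℚ
  have e : (AlgebraicClosure.instAlgebra ℚ : Algebra ℚ Om) = DivisionRing.toRatAlgebra :=
    Subsingleton.elim _ _
  rw [e] at h
  exact ⟨fun x => (IsFractionRing.isAlgebraic_iff ℤ ℚ Om).2 (h.isAlgebraic x)⟩

attribute [local instance] Polynomial.algebra

/-- descent for algebraic series -/
theorem Alg.of_io {R : ℤ⟦X⟧} (h : AlgO (AlgSeries.io R)) : Alg R := by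
  have := isAlgebraic_Om
  have : IsScalarTower ℤ[X] Om[X] Om⟦X⟧ := by
    refine IsScalarTower.of_algebraMap_eq fun q => ?_
    rw [algebraMapO_eq]
    ext n
    simp [PowerSeries.algebraMap_apply']
  have h1 : IsAlgebraic ℤ[X] (AlgSeries.io R) := IsAlgebraic.restrictScalars (S := Om[X]) ℤ[X] h
  refine IsAlgebraic.of_ringHom_of_comp_eq (RingHom.id ℤ[X]) AlgSeries.io h1
    Function.surjective_id io_injective ?_
  refine RingHom.ext fun q => ?_
  ext n
  simp [PowerSeries.algebraMap_apply', coeff_io]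

/-- descent for rational series -/
theorem Ratl.of_io {R : ℤ⟦X⟧} (h : RatlO (AlgSeries.io R)) : Ratl R := by
  have := isAlgebraic_Om
  obtain ⟨p, q, hq, h⟩ := h
  obtain ⟨g, hg, c, hc⟩ := Polynomial.exists_dvd_map_of_isAlgebraic (R := ℤ) hq
  have h1 : AlgSeries.io ((g : ℤ⟦X⟧) * R) = ((c * p : Om[X]) : Om⟦X⟧) := by
    rw [map_mul, io_coe]
    have : (g.map (Int.castRingHom Om)) = q * c := by
      rw [← hc]; rfl
    rw [this, Polynomial.coe_mul, Polynomial.coe_mul, ← h]; ring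
  -- `g * R` has finitely many nonzero coefficients
  refine ⟨PowerSeries.trunc ((c * p).natDegree + 1) ((g : ℤ⟦X⟧) * R), g, hg, ?_⟩
  ext n
  rw [Polynomial.coeff_coe, PowerSeries.coeff_trunc]
  split_ifs with hn
  · rfl
  · have h2 := congrArg (PowerSeries.coeff n) h1
    rw [coeff_io, Polynomial.coeff_coe, Polynomial.coeff_eq_zero_of_natDegree_lt (by omega)] at h2
    exact_mod_cast h2

/-- The mask of `R` on a residue class. -/
noncomputable def mask (M r : ℕ) (R : ℤ⟦X⟧) : ℤ⟦X⟧ := had (fun n => if n % M = r then 1 else 0) R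

theorem io_mask (M r : ℕ) (hr : r < M) (R : ℤ⟦X⟧) {z : Om} (hz : IsPrimitiveRoot z M) :
    AlgSeries.io (mask M r R) = PowerSeries.C ((M : Om)⁻¹) *
      ∑ j ∈ Finset.range M, PowerSeries.C (z ^ (j * (M - r))) *
        PowerSeries.rescale (z ^ j) (AlgSeries.io R) := by
  have hM : (M : Om) ≠ 0 := by
    have : M ≠ 0 := by omega
    exact_mod_cast this
  ext n
  rw [coeff_io, PowerSeries.coeff_C_mul, map_sum]
  simp only [PowerSeries.coeff_C_mul, coeff_rescale, coeff_io, mask, coeff_had]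
  have key : ∑ j ∈ Finset.range M, z ^ (j * (M - r)) * ((z ^ j) ^ n * ((PowerSeries.coeff n R : ℤ) : Om))
      = (∑ j ∈ Finset.range M, (z ^ (M - r + n)) ^ j) * ((PowerSeries.coeff n R : ℤ) : Om) := by
    rw [Finset.sum_mul]
    apply Finset.sum_congr rfl
    intro j _
    rw [← mul_assoc, ← pow_mul, ← pow_add, ← pow_mul]
    congr 2
    ring
  rw [key]
  by_cases h : n % M = r
  · rw [if_pos h]
    have h1 : z ^ (M - r + n) = 1 := by
      rw [hz.pow_eq_one_iff_dvd]
      have h2 := Nat.div_add_mod n M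
      refine ⟨1 + n / M, ?_⟩
      rw [mul_add, mul_one]
      omega
    rw [h1]
    simp
    field_simp
  · rw [if_neg h]
    have h1 : z ^ (M - r + n) ≠ 1 := by
      intro hcon
      rw [hz.pow_eq_one_iff_dvd] at hcon
      apply h
      have h3 : (M - r + n) % M = 0 := Nat.mod_eq_zero_of_dvd hcon
      have h4 : (M - r + n + r) % M = n % M := by
        rw [show M - r + n + r = n + M by omega]; simp
      rw [← h4, Nat.add_mod, h3, zero_add, Nat.mod_mod, Nat.mod_eq_of_lt hr]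
    have h2 : ∑ j ∈ Finset.range M, (z ^ (M - r + n)) ^ j = 0 := by
      have := geom_sum_mul (z ^ (M - r + n)) M
      rw [← pow_mul, mul_comm (M - r + n) M, pow_mul, hz.pow_eq_one, one_pow, sub_self] at this
      rcases mul_eq_zero.1 this with h' | h'
      · exact h'
      · exact absurd (sub_eq_zero.1 h') h1
    rw [h2]; simp

theorem exists_root (M : ℕ) (hM : M ≠ 0) : ∃ z : Om, IsPrimitiveRoot z M := by
  have : NeZero ((M : Om)) := ⟨by exact_mod_cast hM⟩
  exact HasEnoughRootsOfUnity.exists_primitiveRoot Om M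

theorem Alg.mask {R : ℤ⟦X⟧} (h : Alg R) (M r : ℕ) (hr : r < M) : Alg (mask M r R) := by
  obtain ⟨z, hz⟩ := exists_root M (by omega)
  apply Alg.of_io
  rw [io_mask M r hr R hz]
  apply AlgO.C_mul
  apply algO_sum
  intro j _
  exact (h.io.rescale (pow_ne_zero _ (hz.ne_zero (by omega)))).C_mul _

theorem Ratl.mask {R : ℤ⟦X⟧} (h : Ratl R) (M r : ℕ) (hr : r < M) : Ratl (mask M r R) := by
  obtain ⟨z, hz⟩ := exists_root M (by omega)
  apply Ratl.of_io
  rw [io_mask M r hr R hz]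
  apply RatlO.C_mul
  apply ratlO_sum
  intro j _
  exact (h.io.rescale (pow_ne_zero _ (hz.ne_zero (by omega)))).C_mul _

/-- Hadamard product with a periodic weight as a sum of masks. -/
theorem had_eq (M : ℕ) (hM : 0 < M) (w : ℕ → ℤ) (hw : ∀ n, w (n % M) = w n) (R : ℤ⟦X⟧) :
    had w R = ∑ r ∈ Finset.range M, ((Polynomial.C (w r) : ℤ[X]) : ℤ⟦X⟧) * mask M r R := by
  ext n
  rw [coeff_had, map_sum]
  simp only [Polynomial.coe_C, PowerSeries.coeff_C_mul, AlgSeries.mask, coeff_had]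
  rw [Finset.sum_eq_single (n % M)]
  · rw [if_pos rfl, one_mul, hw]
  · intro r _ hr
    rw [if_neg (fun h => hr h.symm)]; simp
  · intro h
    exact absurd (Finset.mem_range.2 (Nat.mod_lt _ hM)) h

theorem Alg.had {R : ℤ⟦X⟧} (h : Alg R) (M : ℕ) (hM : 0 < M) (w : ℕ → ℤ)
    (hw : ∀ n, w (n % M) = w n) : Alg (had w R) := by
  rw [had_eq M hM w hw]
  apply Alg.sum
  intro r hr
  exact (ratl_coe _).alg.mul (h.mask M r (Finset.mem_range.1 hr))

theorem Ratl.had {R : ℤ⟦X⟧} (h : Ratl R) (M : ℕ) (hM : 0 < M) (w : ℕ → ℤ)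
    (hw : ∀ n, w (n % M) = w n) : Ratl (had w R) := by
  rw [had_eq M hM w hw]
  apply Ratl.sum
  intro r hr
  exact (ratl_coe _).mul (h.mask M r (Finset.mem_range.1 hr))

end Pool.Agent.H14.AlgSeries
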