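import Pool.Agent.H14.AlgSeries2

set_option autoImplicit false

namespace Pool.Agent.H14.AlgSeries

open PowerSeries Polynomial

/-- extraction of a residue class -/
noncomputable def ext (l r : ℕ) (f : ℤ⟦X⟧) : ℤ⟦X⟧ :=
  PowerSeries.mk fun n => PowerSeries.coeff (l * n + r) f

@[simp] theorem coeff_ext (l r : ℕ) (f : ℤ⟦X⟧) (n : ℕ) :
    PowerSeries.coeff n (ext l r f) = PowerSeries.coeff (l * n + r) f := by
  simp [ext]

theorem ext_sum (l r : ℕ) {ι : Type*} (s : Finset ι) (f : ι → ℤ⟦X⟧) :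
    ext l r (∑ i ∈ s, f i) = ∑ i ∈ s, ext l r (f i) := by
  ext n
  simp

theorem ext_mul_expand (l r : ℕ) (hl : l ≠ 0) (hr : r < l) (f g : ℤ⟦X⟧) :
    ext l r (f * PowerSeries.expand l hl g) = ext l r f * g := by
  classical
  ext n
  rw [coeff_ext, PowerSeries.coeff_mul, PowerSeries.coeff_mul]
  symm
  apply Finset.sum_bij_ne_zero (fun (p : ℕ × ℕ) _ _ => (l * p.1 + r, l * p.2))
  · intro p hp _
    rw [Finset.HasAntidiagonal.mem_antidiagonal] at hp ⊢
    simp only
    rw [← hp]; ring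
  · intro p _ _ p' _ _ h
    simp only [Prod.mk.injEq] at h
    obtain ⟨h1, h2⟩ := h
    have hl' : 0 < l := Nat.pos_of_ne_zero hl
    ext
    · exact Nat.eq_of_mul_eq_mul_left hl' (by omega)
    · exact Nat.eq_of_mul_eq_mul_left hl' h2
  · intro p hp hne
    rw [Finset.HasAntidiagonal.mem_antidiagonal] at hp
    have hdvd : l ∣ p.2 := by
      by_contra h
      apply hne
      rw [PowerSeries.coeff_expand_of_not_dvd _ _ _ h, mul_zero]
    obtain ⟨b, hb⟩ := hdvd
    have hr' : p.1 % l = r := by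
      have h1 : (p.1 + p.2) % l = r := by
        rw [hp, Nat.mul_add_mod, Nat.mod_eq_of_lt hr]
      rw [hb, Nat.add_mul_mod_self_left] at h1
      exact h1
    have h3 := Nat.div_add_mod p.1 l
    refine ⟨(p.1 / l, b), ?_, ?_, ?_⟩
    · rw [Finset.HasAntidiagonal.mem_antidiagonal]
      simp only
      apply Nat.eq_of_mul_eq_mul_left (Nat.pos_of_ne_zero hl)
      rw [mul_add]
      rw [hr'] at h3
      rw [← hb]; omega
    · rw [coeff_ext]
      simp only
      rw [← hr', h3]
      rw [hb, PowerSeries.coeff_expand_mul] at hne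
      exact hne
    · simp only
      rw [← hr', h3, ← hb]
  · intro p _ _
    rw [coeff_ext, PowerSeries.coeff_expand_mul]

/-- extraction for polynomials -/
noncomputable def pext (l r : ℕ) (q : ℤ[X]) : ℤ[X] :=
  PowerSeries.trunc (q.natDegree + 1) (ext l r (q : ℤ⟦X⟧))

theorem coeff_pext (l r : ℕ) (hl : l ≠ 0) (q : ℤ[X]) (n : ℕ) :
    (pext l r q).coeff n = q.coeff (l * n + r) := by
  rw [pext, PowerSeries.coeff_trunc]
  split_ifs with h
  · rw [coeff_ext, Polynomial.coeff_coe]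
  · rw [Polynomial.coeff_eq_zero_of_natDegree_lt]
    have : n ≤ l * n := Nat.le_mul_of_pos_left n (Nat.pos_of_ne_zero hl)
    omega

theorem coe_pext (l r : ℕ) (hl : l ≠ 0) (q : ℤ[X]) :
    ((pext l r q : ℤ[X]) : ℤ⟦X⟧) = ext l r (q : ℤ⟦X⟧) := by
  ext n
  rw [Polynomial.coeff_coe, coeff_pext l r hl, coeff_ext, Polynomial.coeff_coe]

theorem Alg.of_expand {l : ℕ} (hl : l ≠ 0) {U : ℤ⟦X⟧} (h : Alg (PowerSeries.expand l hl U)) :
    Alg U := by
  classical
  obtain ⟨P, hP, hPV⟩ := h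
  rw [Polynomial.aeval_eq_sum_range] at hPV
  obtain ⟨i0, hi0⟩ : ∃ i, P.coeff i ≠ 0 := by
    by_contra hcon
    push Not at hcon
    exact hP (Polynomial.ext (by simpa using hcon))
  obtain ⟨a0, ha0⟩ : ∃ a, (P.coeff i0).coeff a ≠ 0 := by
    by_contra hcon
    push Not at hcon
    exact hi0 (Polynomial.ext (by simpa using hcon))
  set r := a0 % l with hr
  have hrl : r < l := Nat.mod_lt _ (Nat.pos_of_ne_zero hl)
  let P' : ℤ[X][X] := ∑ i ∈ Finset.range (P.natDegree + 1),
    Polynomial.monomial i (pext l r (P.coeff i))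
  have hcoeff : P'.coeff i0 = pext l r (P.coeff i0) := by
    simp only [P', Polynomial.finsetSum_coeff, Polynomial.coeff_monomial]
    rw [Finset.sum_eq_single i0]
    · simp
    · intro b _ hb
      rw [if_neg hb]
    · intro hi
      have : i0 ≤ P.natDegree := Polynomial.le_natDegree_of_ne_zero hi0
      exact absurd (Finset.mem_range.2 (by omega)) hi
  refine ⟨P', ?_, ?_⟩
  · intro h0
    rw [h0, Polynomial.coeff_zero] at hcoeff
    have h1 := congrArg (fun f => Polynomial.coeff f (a0 / l)) hcoeff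
    simp only [Polynomial.coeff_zero] at h1
    rw [coeff_pext l r hl, hr, Nat.div_add_mod] at h1
    exact ha0 h1.symm
  · have h2 := congrArg (ext l r) hPV
    rw [ext_sum] at h2
    have h3 : ext l r (0 : ℤ⟦X⟧) = 0 := by ext n; simp
    rw [h3] at h2
    rw [← h2, map_sum]
    apply Finset.sum_congr rfl
    intro i _
    rw [Polynomial.aeval_monomial, algebraMap_eq, coe_pext l r hl, Algebra.smul_def, algebraMap_eq,
      ← map_pow, ext_mul_expand l r hl hrl]

/-- `x d/dx` -/
noncomputable def theta (U : ℤ⟦X⟧) : ℤ⟦X⟧ := PowerSeries.X * PowerSeries.derivative ℤ U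

theorem coeff_theta (U : ℤ⟦X⟧) (n : ℕ) :
    PowerSeries.coeff n (theta U) = n * PowerSeries.coeff n U := by
  rw [theta]
  cases n with
  | zero => simp
  | succ n =>
    rw [PowerSeries.coeff_succ_X_mul, PowerSeries.coeff_derivative]
    push_cast; ring

theorem theta_coe (q : ℤ[X]) :
    theta (q : ℤ⟦X⟧) = ((Polynomial.X * Polynomial.derivative q : ℤ[X]) : ℤ⟦X⟧) := by
  ext n
  rw [coeff_theta, Polynomial.coeff_coe, Polynomial.coeff_coe]
  cases n with
  | zero => simp
  | succ n => rw [Polynomial.coeff_X_mul, Polynomial.coeff_derivative]; push_cast; ring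

theorem theta_mul (f g : ℤ⟦X⟧) : theta (f * g) = f * theta g + g * theta f := by
  simp only [theta, Derivation.leibniz, smul_eq_mul]
  ring

theorem theta_pow (f : ℤ⟦X⟧) (n : ℕ) : theta (f ^ n) = n * f ^ (n - 1) * theta f := by
  simp only [theta, Derivation.leibniz_pow, smul_eq_mul, nsmul_eq_mul]
  ring

theorem theta_sum {ι : Type*} (s : Finset ι) (f : ι → ℤ⟦X⟧) :
    theta (∑ i ∈ s, f i) = ∑ i ∈ s, theta (f i) := by
  simp [theta, Finset.mul_sum]

theorem Ratl.theta {U : ℤ⟦X⟧} (h : Ratl U) : Ratl (theta U) := by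
  obtain ⟨p, q, hq, h⟩ := h
  refine ⟨q * (Polynomial.X * Polynomial.derivative p) - (Polynomial.X * Polynomial.derivative q) * p,
    q ^ 2, pow_ne_zero _ hq, ?_⟩
  have h1 := congrArg AlgSeries.theta h
  rw [theta_mul, theta_coe, theta_coe] at h1
  rw [Polynomial.coe_sub, Polynomial.coe_mul, Polynomial.coe_mul (_ * _) p, ← h1, ← h,
    Polynomial.coe_pow]
  ring

theorem Alg.theta {U : ℤ⟦X⟧} (h : Alg U) : Alg (theta U) := by
  classical
  -- minimal degree relation
  obtain ⟨P, ⟨hP, hPU⟩, hmin⟩ : ∃ P : ℤ[X][X], (P ≠ 0 ∧ Polynomial.aeval U P = 0) ∧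
      ∀ P' : ℤ[X][X], P'.natDegree < P.natDegree → P' ≠ 0 → Polynomial.aeval U P' ≠ 0 := by
    have hex : ∃ n, ∃ P : ℤ[X][X], P.natDegree = n ∧ P ≠ 0 ∧ Polynomial.aeval U P = 0 := by
      obtain ⟨P, hP, hPU⟩ := h
      exact ⟨_, P, rfl, hP, hPU⟩
    obtain ⟨P, hn, hP, hPU⟩ := Nat.find_spec hex
    refine ⟨P, ⟨hP, hPU⟩, ?_⟩
    intro P' hdeg hP' hcon
    rw [hn] at hdeg
    exact Nat.find_min hex hdeg ⟨P', rfl, hP', hcon⟩
  have hdeg : P.natDegree ≠ 0 := by
    intro h0
    rw [Polynomial.natDegree_eq_zero] at h0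
    obtain ⟨c, hc⟩ := h0
    rw [← hc] at hPU hP
    rw [Polynomial.aeval_C, algebraMap_eq] at hPU
    have : c ≠ 0 := by
      rintro rfl; simp at hP
    exact coe_ne_zero this hPU
  have hP'0 : Polynomial.derivative P ≠ 0 := by
    intro h0
    exact hdeg (Polynomial.derivative_eq_zero.1 h0)
  have hP'U : Polynomial.aeval U (Polynomial.derivative P) ≠ 0 :=
    hmin _ (Polynomial.natDegree_derivative_lt hdeg) hP'0
  -- differentiate
  have h1 : AlgSeries.theta (Polynomial.aeval U P) =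
      (∑ i ∈ Finset.range (P.natDegree + 1), AlgSeries.theta ((P.coeff i : ℤ[X]) : ℤ⟦X⟧) * U ^ i) +
        Polynomial.aeval U (Polynomial.derivative P) * AlgSeries.theta U := by
    rw [Polynomial.aeval_eq_sum_range, theta_sum]
    have h2 : ∀ i, AlgSeries.theta (P.coeff i • U ^ i) =
        AlgSeries.theta ((P.coeff i : ℤ[X]) : ℤ⟦X⟧) * U ^ i +
          ((P.coeff i : ℤ[X]) : ℤ⟦X⟧) * (i * U ^ (i - 1)) * AlgSeries.theta U := by
      intro i
      rw [Algebra.smul_def, algebraMap_eq, theta_mul, theta_pow]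
      ring
    simp only [h2]
    rw [Finset.sum_add_distrib, ← Finset.sum_mul]
    congr 2
    rw [Polynomial.derivative_apply, Polynomial.sum_over_range _ (fun n => by simp), map_sum]
    apply Finset.sum_congr rfl
    intro i _
    have hcast : (((i : ℤ[X])) : ℤ⟦X⟧) = (i : ℤ⟦X⟧) :=
      map_natCast (Polynomial.coeToPowerSeries.ringHom (R := ℤ)) i
    rw [map_mul, map_pow, Polynomial.aeval_C, Polynomial.aeval_X, algebraMap_eq,
      Polynomial.coe_mul, hcast]
    ring
  rw [hPU] at h1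
  have h2 : AlgSeries.theta (0 : ℤ⟦X⟧) = 0 := by simp [AlgSeries.theta]
  rw [h2] at h1
  have h3 : Alg (Polynomial.aeval U (Polynomial.derivative P)) := by
    rw [Polynomial.aeval_eq_sum_range]
    apply Alg.sum
    intro i _
    rw [Algebra.smul_def, algebraMap_eq]
    exact (ratl_coe _).alg.mul (IsAlgebraic.pow h i)
  have h4 : Alg (Polynomial.aeval U (Polynomial.derivative P) * AlgSeries.theta U) := by
    have h5 : Polynomial.aeval U (Polynomial.derivative P) * AlgSeries.theta U =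
      - ∑ i ∈ Finset.range (P.natDegree + 1), AlgSeries.theta ((P.coeff i : ℤ[X]) : ℤ⟦X⟧) * U ^ i := by
      linear_combination - h1
    rw [h5]
    apply Alg.neg
    apply Alg.sum
    intro i _
    rw [theta_coe]
    exact (ratl_coe _).alg.mul (IsAlgebraic.pow h i)
  exact IsAlgebraic.of_mul (mem_nonZeroDivisors_of_ne_zero hP'U) h3 h4

end Pool.Agent.H14.AlgSeries
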