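import Mathlib

set_option autoImplicit false

namespace Pool.Agent.H14.DivGroup

/-- A countable torsion-free divisible abelian group with an infinite independent sequence is
isomorphic to a direct sum of countably many copies of `ℚ`. -/
theorem nonempty_equiv (Q : Type) [AddCommGroup Q] [Countable Q]
    (htf : ∀ k : ℕ, k ≠ 0 → ∀ x : Q, k • x = 0 → x = 0)
    (hdiv : ∀ k : ℕ, k ≠ 0 → ∀ x : Q, ∃ y : Q, k • y = x)
    (v : ℕ → Q) (hv : LinearIndependent ℤ v) : Nonempty (Q ≃+ (ℕ →₀ ℚ)) := by
  have hinj : Function.Injective (DivisibleHull.coeAddMonoidHom Q) := by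
    rw [injective_iff_map_eq_zero]
    intro x hx
    have h1 : DivisibleHull.mk x 1 = DivisibleHull.mk (0 : Q) 1 := by
      rw [DivisibleHull.mk_zero]; exact hx
    obtain ⟨u, hu⟩ := DivisibleHull.mk_eq_mk.1 h1
    simp at hu
    exact htf u u.ne_zero x hu
  have hsurj : Function.Surjective (DivisibleHull.coeAddMonoidHom Q) := by
    intro y
    induction y with
    | mk x s =>
      obtain ⟨y, hy⟩ := hdiv s s.ne_zero x
      refine ⟨y, ?_⟩
      show DivisibleHull.mk y 1 = DivisibleHull.mk x s
      rw [DivisibleHull.mk_eq_mk]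
      exact ⟨1, by simp [hy]⟩
  let e : Q ≃+ DivisibleHull Q := AddEquiv.ofBijective _ ⟨hinj, hsurj⟩
  have : Countable (DivisibleHull Q) := e.symm.toEquiv.countable_iff.2 inferInstance
  have hv' : LinearIndependent ℤ (fun n => e (v n)) :=
    hv.map' e.toAddMonoidHom.toIntLinearMap
      (LinearMap.ker_eq_bot.2 e.injective)
  have hvQ : LinearIndependent ℚ (fun n => e (v n)) :=
    (LinearIndependent.iff_fractionRing (R := ℤ) (K := ℚ)).1 hv'
  let b := Module.Basis.ofVectorSpace ℚ (DivisibleHull Q)
  have hinf : Infinite (Module.Basis.ofVectorSpaceIndex ℚ (DivisibleHull Q)) := by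
    by_contra hcon
    rw [not_infinite_iff_finite] at hcon
    have : FiniteDimensional ℚ (DivisibleHull Q) := Module.Finite.of_basis b
    have := hvQ.finite
    exact not_finite ℕ
  have hcount : Countable (Module.Basis.ofVectorSpaceIndex ℚ (DivisibleHull Q)) := inferInstance
  obtain ⟨en⟩ := (nonempty_denumerable_iff (α := Module.Basis.ofVectorSpaceIndex ℚ (DivisibleHull Q))).2
    ⟨hcount, hinf⟩
  let b' := b.reindex (Denumerable.eqv (Module.Basis.ofVectorSpaceIndex ℚ (DivisibleHull Q)))
  exact ⟨e.trans b'.repr.toAddEquiv⟩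

end Pool.Agent.H14.DivGroup
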