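import Pool.Agent.H14.AlgSeries3

set_option autoImplicit false

namespace Pool.Agent.H14.Fermat

open PowerSeries Polynomial

/-- `ℤ⟦x⟧ ∩ ℚ(x)`: the additive group of all power series `R` with integer coefficients which are
(Taylor expansions at `0` of) rational functions, i.e. `q * R = p` for some integer polynomials
`p`, `q` with `q ≠ 0`. -/
noncomputable def ratSeries : AddSubgroup ℤ⟦X⟧ where
  carrier := {R | ∃ p q : ℤ[X], q ≠ 0 ∧ (q : ℤ⟦X⟧) * R = (p : ℤ⟦X⟧)}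
  zero_mem' := AlgSeries.ratl_zero
  add_mem' := fun ha hb => AlgSeries.Ratl.add ha hb
  neg_mem' := fun ha => AlgSeries.Ratl.neg ha

/-- The group `𝓕` of all power series `R = ∑ s(n) xⁿ` with integer coefficients which are algebraic
over `ℚ(x)` (equivalently, over `ℤ[x]`) and have the Fermat property: `p ∣ s(p)` for all
sufficiently large primes `p`. -/
noncomputable def fermatSeries : AddSubgroup ℤ⟦X⟧ where
  carrier := {R | IsAlgebraic ℤ[X] R ∧
    ∃ N : ℕ, ∀ p : ℕ, p.Prime → N ≤ p → (p : ℤ) ∣ PowerSeries.coeff p R}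
  zero_mem' := ⟨AlgSeries.alg_zero, 0, by simp⟩
  add_mem' := by
    rintro a b ⟨ha, N, hN⟩ ⟨hb, N', hN'⟩
    refine ⟨AlgSeries.Alg.add ha hb, max N N', fun p hp hle => ?_⟩
    rw [map_add]
    exact dvd_add (hN p hp (le_trans (le_max_left _ _) hle))
      (hN' p hp (le_trans (le_max_right _ _) hle))
  neg_mem' := by
    rintro a ⟨ha, N, hN⟩
    refine ⟨AlgSeries.Alg.neg ha, N, fun p hp hle => ?_⟩
    rw [map_neg, dvd_neg]
    exact hN p hp hle

/-- The group `D` of all `x U'(x)` with `U ∈ ℤ⟦x⟧` algebraic over `ℚ(x)`. -/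
noncomputable def derivSeries : AddSubgroup ℤ⟦X⟧ where
  carrier := {R | ∃ U : ℤ⟦X⟧, IsAlgebraic ℤ[X] U ∧
    R = PowerSeries.X * PowerSeries.derivative ℤ U}
  zero_mem' := ⟨0, AlgSeries.alg_zero, by simp⟩
  add_mem' := by
    rintro a b ⟨U, hU, rfl⟩ ⟨V, hV, rfl⟩
    exact ⟨U + V, AlgSeries.Alg.add hU hV, by rw [map_add, mul_add]⟩
  neg_mem' := by
    rintro a ⟨U, hU, rfl⟩
    exact ⟨-U, AlgSeries.Alg.neg hU, by rw [map_neg, mul_neg]⟩

/-- The group `P` of all finite sums `∑ⱼ Uⱼ(x ^ Mⱼ)` with integers `Mⱼ ≥ 2` and `Uⱼ ∈ ℤ⟦x⟧`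
algebraic over `ℚ(x)` (here `PowerSeries.expand M _ U` is `U(x ^ M)`). -/
noncomputable def powerSeries : AddSubgroup ℤ⟦X⟧ :=
  AddSubgroup.closure {R | ∃ (M : ℕ) (hM : M ≠ 0) (U : ℤ⟦X⟧), 2 ≤ M ∧ IsAlgebraic ℤ[X] U ∧
    R = PowerSeries.expand M hM U}

/-- The group `ℤ[x]` of integer polynomials inside `ℤ⟦x⟧`. -/
noncomputable def polySeries : AddSubgroup ℤ⟦X⟧ :=
  (Polynomial.coeToPowerSeries.ringHom (R := ℤ)).toAddMonoidHom.range

/-- For a subgroup `K` of `ℤ⟦x⟧` (the integral power series lying in a subfield of the algebraic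
functions), the numerator `𝓕 ∩ K`. -/
noncomputable def numer (K : AddSubgroup ℤ⟦X⟧) : AddSubgroup ℤ⟦X⟧ := fermatSeries ⊓ K

/-- For a subgroup `K` of `ℤ⟦x⟧`, the denominator `(D ∩ K) + ℤ[x] + (P ∩ K)`. -/
noncomputable def denom (K : AddSubgroup ℤ⟦X⟧) : AddSubgroup ℤ⟦X⟧ :=
  (derivSeries ⊓ K) ⊔ polySeries ⊔ (powerSeries ⊓ K)

end Pool.Agent.H14.Fermat
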