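import Pool.Agent.H14.FermatDefs
import Pool.Agent.H14.DivGroup

set_option autoImplicit false

namespace Pool.Agent.H14.Fermat

open PowerSeries Polynomial AlgSeries

/-- The closure properties used in the proof. -/
structure Good (K : AddSubgroup ℤ⟦X⟧) : Prop where
  rat : ∀ R, Ratl R → R ∈ K
  had : ∀ R ∈ K, ∀ M > 0, ∀ w : ℕ → ℤ, (∀ n, w (n % M) = w n) → had w R ∈ K
  div : ∀ c : ℤ, c ≠ 0 → ∀ R, ((Polynomial.C c : ℤ[X]) : ℤ⟦X⟧) * R ∈ K → R ∈ K
  theta : ∀ R ∈ K, theta R ∈ K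

theorem mem_poly {R : ℤ⟦X⟧} : R ∈ polySeries ↔ ∃ f : ℤ[X], (f : ℤ⟦X⟧) = R := Iff.rfl

/-- elements of `P` vanish at indices coprime to some `M`. -/
theorem vanish {W : ℤ⟦X⟧} (hW : W ∈ powerSeries) :
    ∃ M : ℕ, 0 < M ∧ ∀ n : ℕ, Nat.Coprime n M → PowerSeries.coeff n W = 0 := by
  induction hW using AddSubgroup.closure_induction with
  | mem x hx =>
    obtain ⟨M, hM, U, hM2, -, rfl⟩ := hx
    refine ⟨M, by omega, fun n hn => ?_⟩
    apply PowerSeries.coeff_expand_of_not_dvd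
    intro hdvd
    have h1 : M ∣ Nat.gcd n M := Nat.dvd_gcd hdvd dvd_rfl
    rw [hn] at h1
    have := Nat.le_of_dvd one_pos h1
    omega
  | zero => exact ⟨1, one_pos, fun n _ => by simp⟩
  | add x y _ _ hx hy =>
    obtain ⟨M, hM0, hM⟩ := hx
    obtain ⟨M', hM0', hM'⟩ := hy
    refine ⟨M * M', Nat.mul_pos hM0 hM0', fun n hn => ?_⟩
    rw [map_add, hM n (Nat.Coprime.coprime_mul_right_right hn),
      hM' n (Nat.Coprime.coprime_mul_left_right hn), add_zero]
  | neg x _ hx =>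
    obtain ⟨M, hM0, hM⟩ := hx
    exact ⟨M, hM0, fun n hn => by rw [map_neg, hM n hn, neg_zero]⟩

theorem coe_series_vanish (f : ℤ[X]) (n : ℕ) (hn : f.natDegree < n) :
    PowerSeries.coeff n (f : ℤ⟦X⟧) = 0 := by
  rw [Polynomial.coeff_coe, Polynomial.coeff_eq_zero_of_natDegree_lt hn]

/-- Description of the elements of the denominator. -/
theorem denom_spec {K : AddSubgroup ℤ⟦X⟧} {R : ℤ⟦X⟧} (hR : R ∈ denom K) :
    ∃ (U : ℤ⟦X⟧) (M N : ℕ), Alg U ∧ 0 < M ∧
      ∀ n, Nat.Coprime n M → N < n → PowerSeries.coeff n R = n * PowerSeries.coeff n U := by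
  obtain ⟨a, ha, W, hW, rfl⟩ := AddSubgroup.mem_sup.1 hR
  obtain ⟨d, hd, f, hf, rfl⟩ := AddSubgroup.mem_sup.1 ha
  obtain ⟨⟨U, hU, rfl⟩, -⟩ := hd
  obtain ⟨f, rfl⟩ := mem_poly.1 hf
  obtain ⟨M, hM0, hM⟩ := vanish hW.1
  refine ⟨U, M, f.natDegree, hU, hM0, fun n hn hlt => ?_⟩
  rw [map_add, map_add, hM n hn, coe_series_vanish f n hlt, add_zero, add_zero]
  exact coeff_theta U n

theorem alg_expand {M : ℕ} (hM : M ≠ 0) {U : ℤ⟦X⟧} (hU : Alg U) :
    Alg (PowerSeries.expand M hM U) := by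
  refine IsAlgebraic.ringHom_of_comp_eq (Polynomial.expand ℤ M : ℤ[X] →ₐ[ℤ] ℤ[X])
    (PowerSeries.expand M hM) hU (Polynomial.expand_injective (Nat.pos_of_ne_zero hM)) ?_
  refine RingHom.ext fun q => ?_
  simp only [RingHom.comp_apply, RingHom.coe_coe]
  rw [algebraMap_eq, algebraMap_eq]
  ext n
  rw [Polynomial.coeff_coe, Polynomial.coeff_expand (Nat.pos_of_ne_zero hM),
    PowerSeries.coeff_expand, Polynomial.coeff_coe]

theorem alg_of_mem_power {W : ℤ⟦X⟧} (hW : W ∈ powerSeries) : Alg W := by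
  induction hW using AddSubgroup.closure_induction with
  | mem x hx =>
    obtain ⟨M, hM, U, hM2, hU, rfl⟩ := hx
    exact alg_expand hM hU
  | zero => exact alg_zero
  | add x y _ _ hx hy => exact hx.add hy
  | neg x _ hx => exact hx.neg

/-- The denominator is contained in the numerator. -/
theorem denom_le {K : AddSubgroup ℤ⟦X⟧} (hK : Good K) : denom K ≤ numer K := by
  apply sup_le
  apply sup_le
  · rintro R ⟨⟨U, hU, rfl⟩, hRK⟩
    refine ⟨⟨Alg.theta hU, 0, fun p hp _ => ?_⟩, hRK⟩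
    exact ⟨_, coeff_theta U p⟩
  · rintro R hR
    obtain ⟨f, rfl⟩ := mem_poly.1 hR
    refine ⟨⟨(ratl_coe f).alg, f.natDegree + 1, fun p hp hle => ?_⟩, hK.rat _ (ratl_coe f)⟩
    rw [coe_series_vanish f p (by omega)]
    exact dvd_zero _
  · rintro W ⟨hW, hWK⟩
    obtain ⟨M, hM0, hM⟩ := vanish hW
    refine ⟨⟨alg_of_mem_power hW, M + 1, fun p hp hle => ?_⟩, hWK⟩
    rw [hM p ((Nat.Prime.coprime_iff_not_dvd hp).2 fun h => ?_)]
    · exact dvd_zero _
    · have := Nat.le_of_dvd hM0 h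
      omega

/-- indicator of being coprime to `k` -/
def cop (k n : ℕ) : ℤ := if Nat.Coprime n k then 1 else 0

theorem coprime_mod (k n : ℕ) : Nat.Coprime (n % k) k ↔ Nat.Coprime n k := by
  unfold Nat.Coprime
  rw [← Nat.gcd_rec, Nat.gcd_comm]

theorem cop_mod (k n : ℕ) : cop k (n % k) = cop k n := by
  unfold cop
  simp only [coprime_mod]

/-- The part of `R` at the indices not coprime to `k` lies in `P`. -/
theorem noncoprime {K : AddSubgroup ℤ⟦X⟧} (hK : Good K) {R : ℤ⟦X⟧} (hR : Alg R) (hRK : R ∈ K)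
    {k : ℕ} (hk : 0 < k) : had (fun n => 1 - cop k n) R ∈ powerSeries ⊓ K := by
  classical
  refine ⟨?_, hK.had R hRK k hk _ fun n => by simp only [cop_mod]⟩
  have hper : ∀ l n : ℕ, (if (Nat.gcd (n % k) k).minFac = l then (1 : ℤ) else 0) =
      if (Nat.gcd n k).minFac = l then 1 else 0 := by
    intro l n
    rw [← Nat.gcd_rec, Nat.gcd_comm]
  have hsum : had (fun n => 1 - cop k n) R =
      ∑ l ∈ k.primeFactors, had (fun n => if (Nat.gcd n k).minFac = l then 1 else 0) R := by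
    ext n
    rw [coeff_had, map_sum]
    simp only [coeff_had]
    rw [← Finset.sum_mul]
    congr 1
    unfold cop
    by_cases h : Nat.Coprime n k
    · rw [if_pos h, sub_self, Finset.sum_eq_zero]
      intro l hl
      rw [if_neg]
      intro h'
      rw [h] at h'
      simp at h'
      exact (Nat.prime_of_mem_primeFactors hl).one_lt.ne h'
    · rw [if_neg h, sub_zero, Finset.sum_eq_single (Nat.gcd n k).minFac]
      · simp
      · intro b _ hb
        rw [if_neg (Ne.symm hb)]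
      · intro hmem
        exfalso
        apply hmem
        rw [Nat.mem_primeFactors]
        exact ⟨Nat.minFac_prime h, (Nat.minFac_dvd _).trans (Nat.gcd_dvd_right _ _), hk.ne'⟩
  rw [hsum]
  apply AddSubgroup.sum_mem
  intro l hl
  have hlp := Nat.prime_of_mem_primeFactors hl
  set V := had (fun n => if (Nat.gcd n k).minFac = l then 1 else 0) R with hV
  have hVexp : V = PowerSeries.expand l hlp.ne_zero (AlgSeries.ext l 0 V) := by
    ext n
    rw [PowerSeries.coeff_expand]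
    split_ifs with h
    · rw [coeff_ext, add_zero, Nat.mul_div_cancel' h]
    · rw [hV, coeff_had, if_neg, zero_mul]
      intro h'
      apply h
      rw [← h']
      exact (Nat.minFac_dvd _).trans (Nat.gcd_dvd_left _ _)
  have hValg : Alg V := hR.had k hk _ (hper l)
  apply AddSubgroup.subset_closure
  refine ⟨l, hlp.ne_zero, AlgSeries.ext l 0 V, hlp.two_le, ?_, hVexp⟩
  exact Alg.of_expand hlp.ne_zero (by rw [← hVexp]; exact hValg)

theorem divisible {K : AddSubgroup ℤ⟦X⟧} (hK : Good K) {R : ℤ⟦X⟧} (hR : R ∈ numer K)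
    {k : ℕ} (hk : k ≠ 0) : ∃ R' ∈ numer K, R - k • R' ∈ denom K := by
  classical
  obtain ⟨⟨hRalg, N, hN⟩, hRK⟩ := hR
  have hRalg : Alg R := hRalg
  have hk0 : 0 < k := Nat.pos_of_ne_zero hk
  let w : ℕ → ℤ := fun n => if Nat.Coprime n k then (((n : ZMod k)⁻¹).val : ℤ) else 0
  have hw : ∀ n, w (n % k) = w n := by
    intro n
    simp only [w, coprime_mod, ZMod.natCast_mod]
  have hwk : ∀ n, Nat.Coprime n k → (k : ℤ) ∣ 1 - n * w n := by
    intro n hn
    have : NeZero k := ⟨hk⟩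
    rw [← ZMod.intCast_zmod_eq_zero_iff_dvd]
    simp only [w, if_pos hn]
    push_cast
    rw [ZMod.natCast_zmod_val, ZMod.coe_mul_inv_eq_one n hn, sub_self]
  let U : ℤ⟦X⟧ := had w R
  let R' : ℤ⟦X⟧ := PowerSeries.mk fun n =>
    if Nat.Coprime n k then (1 - n * w n) / k * PowerSeries.coeff n R else 0
  have hkR' : ((Polynomial.C (k : ℤ) : ℤ[X]) : ℤ⟦X⟧) * R' = had (cop k) R - AlgSeries.theta U := by
    ext n
    rw [Polynomial.coe_C, PowerSeries.coeff_C_mul, map_sub, coeff_had, coeff_theta, coeff_had,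
      PowerSeries.coeff_mk]
    unfold cop
    by_cases h : Nat.Coprime n k
    · rw [if_pos h, if_pos h, ← mul_assoc, Int.mul_ediv_cancel' (hwk n h)]
      ring
    · rw [if_neg h, if_neg h]
      simp [w, h]
  have hUalg : Alg U := hRalg.had k hk0 w hw
  have hUK : U ∈ K := hK.had R hRK k hk0 w hw
  have hcopK : had (cop k) R ∈ K := hK.had R hRK k hk0 _ (cop_mod k)
  have hR'K : R' ∈ K := by
    apply hK.div (k : ℤ) (by exact_mod_cast hk)
    rw [hkR']
    exact K.sub_mem hcopK (hK.theta U hUK)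
  have hR'alg : Alg R' := by
    apply Alg.of_mul (c := Polynomial.C (k : ℤ))
    · simpa using hk
    · rw [hkR']
      exact (hRalg.had k hk0 _ (cop_mod k)).sub hUalg.theta
  refine ⟨R', ⟨⟨hR'alg, N, fun p hp hle => ?_⟩, hR'K⟩, ?_⟩
  · rw [PowerSeries.coeff_mk]
    split_ifs
    · exact Dvd.dvd.mul_left (hN p hp hle) _
    · exact dvd_zero _
  · have hkk : k • R' = ((Polynomial.C (k : ℤ) : ℤ[X]) : ℤ⟦X⟧) * R' := by
      rw [nsmul_eq_mul, Polynomial.coe_C, map_natCast]
    have : R - k • R' = AlgSeries.theta U + had (fun n => 1 - cop k n) R := by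
      rw [hkk, hkR']
      ext n
      simp only [map_sub, map_add, coeff_had]
      ring
    rw [this]
    exact AddSubgroup.add_mem_sup
      (AddSubgroup.mem_sup_left ⟨⟨U, hUalg, rfl⟩, hK.theta U hUK⟩) (noncoprime hK hRalg hRK hk0)

theorem torsionFree {K : AddSubgroup ℤ⟦X⟧} (hK : Good K) {R : ℤ⟦X⟧} (hR : R ∈ numer K)
    {k : ℕ} (hk : k ≠ 0) (hkR : k • R ∈ denom K) : R ∈ denom K := by
  classical
  obtain ⟨⟨hRalg, -⟩, hRK⟩ := hR
  have hRalg : Alg R := hRalg
  obtain ⟨U, M, N, hU, hM, hspec⟩ := denom_spec hkR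
  have hk0 : 0 < k := Nat.pos_of_ne_zero hk
  set L := k * M with hL
  have hL0 : 0 < L := Nat.mul_pos hk0 hM
  have key : ∀ n, Nat.Coprime n L → N < n →
      (k : ℤ) ∣ PowerSeries.coeff n U ∧
        PowerSeries.coeff n R = n * (PowerSeries.coeff n U / k) := by
    intro n hn hlt
    have h1 := hspec n (Nat.Coprime.coprime_mul_left_right hn) hlt
    have h2 : (k : ℤ) * PowerSeries.coeff n R = n * PowerSeries.coeff n U := by
      rw [← h1, map_nsmul, nsmul_eq_mul]
    have h3 : (k : ℤ) ∣ PowerSeries.coeff n U := by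
      have h4 : (k : ℤ) ∣ n * PowerSeries.coeff n U := ⟨_, h2.symm⟩
      refine IsCoprime.dvd_of_dvd_mul_left ?_ h4
      rw [Int.isCoprime_iff_gcd_eq_one]
      have : Nat.Coprime k n := (Nat.Coprime.coprime_mul_right_right hn).symm
      simpa [Int.gcd] using this
    refine ⟨h3, ?_⟩
    obtain ⟨c, hc⟩ := h3
    rw [hc] at h2 ⊢
    have hkz : (k : ℤ) ≠ 0 := by exact_mod_cast hk
    rw [Int.mul_ediv_cancel_left _ hkz]
    apply mul_left_cancel₀ hkz
    rw [h2]; ring
  let U1 : ℤ⟦X⟧ := PowerSeries.mk fun n =>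
    if Nat.Coprime n L ∧ N < n then PowerSeries.coeff n U / k else 0
  have hU1alg : Alg U1 := by
    apply Alg.of_mul (c := Polynomial.C (k : ℤ))
    · simpa using hk
    · have : ((Polynomial.C (k : ℤ) : ℤ[X]) : ℤ⟦X⟧) * U1 =
          had (cop L) U - ((PowerSeries.trunc (N + 1) (had (cop L) U) : ℤ[X]) : ℤ⟦X⟧) := by
        ext n
        rw [Polynomial.coe_C, PowerSeries.coeff_C_mul, map_sub, Polynomial.coeff_coe,
          PowerSeries.coeff_trunc, coeff_had, PowerSeries.coeff_mk]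
        unfold cop
        by_cases h1 : Nat.Coprime n L
        · by_cases h2 : N < n
          · rw [if_pos ⟨h1, h2⟩, if_pos h1, if_neg (by omega),
              Int.mul_ediv_cancel' (key n h1 h2).1]
            ring
          · rw [if_neg (fun h => h2 h.2), if_pos h1, if_pos (by omega)]
            ring
        · rw [if_neg (fun h => h1 h.1), if_neg h1]
          split_ifs <;> ring
      rw [this]
      exact (hU.had L hL0 _ (cop_mod L)).sub (ratl_coe _).alg
  have hth : AlgSeries.theta U1 =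
      had (cop L) R - ((PowerSeries.trunc (N + 1) (had (cop L) R) : ℤ[X]) : ℤ⟦X⟧) := by
    ext n
    rw [coeff_theta, map_sub, Polynomial.coeff_coe, PowerSeries.coeff_trunc, coeff_had,
      PowerSeries.coeff_mk]
    unfold cop
    by_cases h1 : Nat.Coprime n L
    · by_cases h2 : N < n
      · rw [if_pos ⟨h1, h2⟩, if_pos h1, if_neg (by omega), ← (key n h1 h2).2]
        ring
      · rw [if_neg (fun h => h2 h.2), if_pos h1, if_pos (by omega)]
        ring
    · rw [if_neg (fun h => h1 h.1), if_neg h1]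
      split_ifs <;> ring
  have hR : R = AlgSeries.theta U1 +
      ((PowerSeries.trunc (N + 1) (had (cop L) R) : ℤ[X]) : ℤ⟦X⟧) +
      had (fun n => 1 - cop L n) R := by
    rw [hth]
    ext n
    simp only [map_sub, map_add, coeff_had]
    ring
  rw [hR]
  refine AddSubgroup.add_mem_sup (AddSubgroup.add_mem_sup ⟨⟨U1, hU1alg, rfl⟩, ?_⟩
    (mem_poly.2 ⟨_, rfl⟩)) (noncoprime hK hRalg hRK hL0)
  rw [hth]
  exact K.sub_mem (hK.had R hRK L hL0 _ (cop_mod L)) (hK.rat _ (ratl_coe _))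

end Pool.Agent.H14.Fermat
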