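import Pool.Agent.H14.FermatMain

set_option autoImplicit false

namespace Pool.Agent.H14.Fermat

open PowerSeries Polynomial AlgSeries Filter Topology

/-- the series `∑ (a ^ n - a) x ^ n` with `a = j + 2` -/
noncomputable def fam (j : ℕ) : ℤ⟦X⟧ :=
  PowerSeries.mk fun n => ((j : ℤ) + 2) ^ n - ((j : ℤ) + 2)

theorem ratl_pow (a : ℤ) : Ratl (PowerSeries.mk fun n => a ^ n) := by
  refine ⟨1, 1 - Polynomial.C a * Polynomial.X, ?_, ?_⟩
  · intro h
    have := congrArg (fun f => Polynomial.eval 0 f) h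
    simp at this
  · rw [Polynomial.coe_sub, Polynomial.coe_mul, Polynomial.coe_C, Polynomial.coe_X,
      Polynomial.coe_one, sub_mul, one_mul, mul_assoc]
    ext n
    cases n with
    | zero => simp
    | succ n =>
      rw [map_sub, PowerSeries.coeff_C_mul, PowerSeries.coeff_succ_X_mul, PowerSeries.coeff_mk,
        PowerSeries.coeff_mk, PowerSeries.coeff_one]
      simp [pow_succ]; ring

theorem ratl_fam (j : ℕ) : Ratl (fam j) := by
  have : fam j = (PowerSeries.mk fun n => ((j : ℤ) + 2) ^ n) -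
      ((Polynomial.C ((j : ℤ) + 2) : ℤ[X]) : ℤ⟦X⟧) * (PowerSeries.mk fun n => (1 : ℤ) ^ n) := by
    ext n
    rw [map_sub, Polynomial.coe_C, PowerSeries.coeff_C_mul, fam]
    simp
  rw [this]
  exact (ratl_pow _).sub ((ratl_coe _).mul (ratl_pow 1))

theorem dvd_pow_sub (a : ℤ) (p : ℕ) (hp : p.Prime) : (p : ℤ) ∣ a ^ p - a := by
  have : Fact p.Prime := ⟨hp⟩
  rw [← ZMod.intCast_zmod_eq_zero_iff_dvd]
  push_cast
  rw [ZMod.pow_card, sub_self]

theorem fam_mem {K : AddSubgroup ℤ⟦X⟧} (hK : Good K) (j : ℕ) : fam j ∈ numer K := by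
  refine ⟨⟨(ratl_fam j).alg, 0, fun p hp _ => ?_⟩, hK.rat _ (ratl_fam j)⟩
  rw [fam, PowerSeries.coeff_mk]
  exact dvd_pow_sub _ p hp

theorem fam_indep {K : AddSubgroup ℤ⟦X⟧} (s : Finset ℕ) (g : ℕ → ℤ)
    (h : ∑ i ∈ s, g i • fam i ∈ denom K) : ∀ i ∈ s, g i = 0 := by
  classical
  by_contra hcon
  push Not at hcon
  obtain ⟨U, M, N, -, hM, hspec⟩ := denom_spec h
  -- coefficients
  have hcoeff : ∀ n, PowerSeries.coeff n (∑ i ∈ s, g i • fam i) =
      ∑ i ∈ s, g i * (((i : ℤ) + 2) ^ n - ((i : ℤ) + 2)) := by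
    intro n
    rw [map_sum]
    apply Finset.sum_congr rfl
    intro i _
    rw [map_zsmul, fam, PowerSeries.coeff_mk, smul_eq_mul]
  -- vanishing at large primes
  have hvan : ∀ q : ℕ, q.Prime → M < q →
      ∑ i ∈ s, g i * (((i : ℤ) + 2) ^ q - ((i : ℤ) + 2)) = 0 := by
    intro q hq hMq
    set S := ∑ i ∈ s, g i * (((i : ℤ) + 2) ^ q - ((i : ℤ) + 2)) with hS
    obtain ⟨p, hple, hp⟩ := Nat.exists_infinite_primes (M + N + S.natAbs + 1)
    have hcop : Nat.Coprime (p * q) M := by
      apply Nat.Coprime.mul_left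
      · rw [Nat.Prime.coprime_iff_not_dvd hp]
        intro hd
        have := Nat.le_of_dvd hM hd
        omega
      · rw [Nat.Prime.coprime_iff_not_dvd hq]
        intro hd
        have := Nat.le_of_dvd hM hd
        omega
    have h1 := hspec (p * q) hcop (by
      have : p ≤ p * q := Nat.le_mul_of_pos_right p hq.pos
      omega)
    rw [hcoeff] at h1
    have h2 : (p : ℤ) ∣ ∑ i ∈ s, g i * (((i : ℤ) + 2) ^ (p * q) - ((i : ℤ) + 2)) := by
      rw [h1]
      push_cast
      exact ⟨q * PowerSeries.coeff (p * q) U, by ring⟩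
    have h3 : (p : ℤ) ∣ ∑ i ∈ s, g i * (((i : ℤ) + 2) ^ (p * q) - ((i : ℤ) + 2)) - S := by
      rw [hS, ← Finset.sum_sub_distrib]
      apply Finset.dvd_sum
      intro i _
      rw [← mul_sub, sub_sub_sub_cancel_right, mul_comm p q, pow_mul]
      exact Dvd.dvd.mul_left (dvd_pow_sub _ p hp) _
    have h4 : (p : ℤ) ∣ S := by
      have := dvd_sub h2 h3
      simpa using this
    by_contra hne
    have h5 := Int.le_of_dvd (Int.natAbs_pos.2 hne |> fun h => by exact_mod_cast h)
      ((Int.dvd_natAbs).2 h4 : (p : ℤ) ∣ (S.natAbs : ℤ))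
    have h6 : p ≤ S.natAbs := by exact_mod_cast h5
    omega
  -- growth
  obtain ⟨i0, hi0, hgi0⟩ := hcon
  let t := s.filter (fun i => g i ≠ 0)
  have ht : t.Nonempty := ⟨i0, Finset.mem_filter.2 ⟨hi0, hgi0⟩⟩
  let m := t.max' ht
  have hm : m ∈ t := Finset.max'_mem t ht
  have hmle : ∀ i ∈ t, i ≤ m := fun i hi => Finset.le_max' t i hi
  have hgm : g m ≠ 0 := (Finset.mem_filter.1 hm).2
  let f : ℕ → ℝ := fun q => ∑ i ∈ t, (g i : ℝ) * ((((i : ℝ) + 2) / ((m : ℝ) + 2)) ^ q -
    ((i : ℝ) + 2) * (1 / ((m : ℝ) + 2)) ^ q)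
  have hlim : Tendsto f atTop (𝓝 (∑ i ∈ t, (g i : ℝ) * ((if i = m then 1 else 0) -
      ((i : ℝ) + 2) * 0))) := by
    apply tendsto_finsetSum
    intro i hi
    apply Tendsto.const_mul
    have hmpos : (0 : ℝ) < (m : ℝ) + 2 := by positivity
    apply Tendsto.sub
    · by_cases him : i = m
      · rw [if_pos him, him, div_self hmpos.ne']
        have h1 : (fun q : ℕ => (1 : ℝ) ^ q) = fun _ => 1 := by
          funext q; exact one_pow q
        show Tendsto (fun q : ℕ => (1 : ℝ) ^ q) atTop (𝓝 1)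
        rw [h1]
        exact tendsto_const_nhds
      · rw [if_neg him]
        apply tendsto_pow_atTop_nhds_zero_of_lt_one (by positivity)
        rw [div_lt_one hmpos]
        have h1 : i < m := lt_of_le_of_ne (hmle i hi) him
        have h2 : (i : ℝ) < m := by exact_mod_cast h1
        linarith
    · apply Tendsto.const_mul
      apply tendsto_pow_atTop_nhds_zero_of_lt_one (by positivity)
      rw [div_lt_one hmpos]
      have : (0 : ℝ) ≤ m := Nat.cast_nonneg m
      linarith
  have hval : (∑ i ∈ t, (g i : ℝ) * ((if i = m then 1 else 0) - ((i : ℝ) + 2) * 0)) = g m := by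
    rw [Finset.sum_eq_single m]
    · simp
    · intro b _ hb
      simp [hb]
    · intro h'
      exact absurd hm h'
  rw [hval] at hlim
  have hfreq : ∃ᶠ q in atTop, f q = (fun _ : ℕ => (0 : ℝ)) q := by
    rw [frequently_atTop]
    intro a
    obtain ⟨q, hqle, hq⟩ := Nat.exists_infinite_primes (a + M + 1)
    refine ⟨q, by omega, ?_⟩
    have h1 := hvan q hq (by omega)
    have h2 : ∑ i ∈ t, g i * (((i : ℤ) + 2) ^ q - ((i : ℤ) + 2)) = 0 := by
      rw [← h1]
      apply Finset.sum_subset (Finset.filter_subset _ _)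
      intro i hi hit
      have : g i = 0 := by
        by_contra h'
        exact hit (Finset.mem_filter.2 ⟨hi, h'⟩)
      rw [this, zero_mul]
    have h3 : ∑ i ∈ t, (g i : ℝ) * (((i : ℝ) + 2) ^ q - ((i : ℝ) + 2)) = 0 := by
      exact_mod_cast congrArg (fun z : ℤ => (z : ℝ)) h2
    have hmpos : (0 : ℝ) < (m : ℝ) + 2 := by positivity
    have h4 : f q = (1 / ((m : ℝ) + 2)) ^ q *
        ∑ i ∈ t, (g i : ℝ) * (((i : ℝ) + 2) ^ q - ((i : ℝ) + 2)) := by
      simp only [f]
      rw [Finset.mul_sum]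
      apply Finset.sum_congr rfl
      intro i _
      rw [div_pow, div_pow, one_pow]
      ring
    rw [h4, h3, mul_zero]
  have := tendsto_nhds_unique_of_frequently_eq hlim tendsto_const_nhds hfreq
  exact hgm (by exact_mod_cast this)

/-- The quotient is a countable direct sum of copies of `ℚ`. -/
theorem main {K : AddSubgroup ℤ⟦X⟧} (hK : Good K) :
    denom K ≤ numer K ∧
      Nonempty ((↥(numer K) ⧸ (denom K).addSubgroupOf (numer K)) ≃+ (ℕ →₀ ℚ)) := by
  refine ⟨denom_le hK, ?_⟩
  have htf : Module.IsTorsionFree ℤ[X] ℤ⟦X⟧ := by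
    rw [Module.isTorsionFree_iff_algebraMap_injective]
    intro a b hab
    rw [algebraMap_eq, algebraMap_eq] at hab
    exact coe_injective hab
  have hcZ : Countable ℤ[X] := by
    rw [← Cardinal.mk_le_aleph0_iff]
    refine Polynomial.cardinalMk_le_max.trans ?_
    simp
  have hcount : Countable ↥(numer K) := by
    have h1 : {x : ℤ⟦X⟧ | IsAlgebraic ℤ[X] x}.Countable := Algebraic.countable ℤ[X] ℤ⟦X⟧
    have h2 : (numer K : Set ℤ⟦X⟧).Countable := h1.mono fun x hx => hx.1.1
    exact h2.to_subtype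
  have hcountQ : Countable (↥(numer K) ⧸ (denom K).addSubgroupOf (numer K)) :=
    (QuotientAddGroup.mk_surjective (s := (denom K).addSubgroupOf (numer K))).countable
  have hmk : ∀ x : ↥(numer K), (QuotientAddGroup.mk x :
      ↥(numer K) ⧸ (denom K).addSubgroupOf (numer K)) = 0 ↔ (x : ℤ⟦X⟧) ∈ denom K := by
    intro x
    rw [QuotientAddGroup.eq_zero_iff, AddSubgroup.mem_addSubgroupOf]
  apply DivGroup.nonempty_equiv _ ?_ ?_ (fun j => QuotientAddGroup.mk ⟨fam j, fam_mem hK j⟩) ?_
  · intro k hk x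
    induction x using QuotientAddGroup.induction_on with
    | H x =>
      intro hx
      rw [← QuotientAddGroup.mk_nsmul, hmk] at hx
      rw [hmk]
      exact torsionFree hK x.2 hk (by simpa using hx)
  · intro k hk x
    induction x using QuotientAddGroup.induction_on with
    | H x =>
      obtain ⟨R', hR', h⟩ := divisible hK x.2 hk
      refine ⟨QuotientAddGroup.mk ⟨R', hR'⟩, ?_⟩
      rw [eq_comm, ← sub_eq_zero, ← QuotientAddGroup.mk_nsmul, ← QuotientAddGroup.mk_sub, hmk]
      simpa using h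
  · rw [linearIndependent_iff']
    intro s g hsum
    apply fam_indep (K := K) s g
    have h1 : (∑ i ∈ s, g i • (QuotientAddGroup.mk ⟨fam i, fam_mem hK i⟩ :
        ↥(numer K) ⧸ (denom K).addSubgroupOf (numer K))) =
        QuotientAddGroup.mk (∑ i ∈ s, g i • (⟨fam i, fam_mem hK i⟩ : ↥(numer K))) := by
      have := map_sum (QuotientAddGroup.mk' ((denom K).addSubgroupOf (numer K)))
        (fun i => g i • (⟨fam i, fam_mem hK i⟩ : ↥(numer K))) s
      simp only [map_zsmul, QuotientAddGroup.mk'_apply] at this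
      exact this.symm
    rw [h1, hmk] at hsum
    simpa using hsum

theorem good_rat : Good ratSeries where
  rat := fun _ h => h
  had := fun _ hR M hM w hw => Ratl.had hR M hM w hw
  div := fun c hc _ h => Ratl.of_mul (c := Polynomial.C c) (by simpa using hc) h
  theta := fun _ h => Ratl.theta h

theorem good_top : Good ⊤ where
  rat := fun _ _ => trivial
  had := fun _ _ _ _ _ _ => trivial
  div := fun _ _ _ _ => trivial
  theta := fun _ _ => trivial

end Pool.Agent.H14.Fermat
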