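import Mathlib

set_option autoImplicit false

namespace Pool.Agent.H14.Tau

open Set Filter Topology MeasureTheory

/-- The selection property `S₁(Ω, T)` of a topological space, in the form of the frozen statement. -/
def S1OT (X : Type) [TopologicalSpace X] : Prop :=
  ∀ U : ℕ → Set (Set X),
    (∀ n, (∀ V ∈ U n, IsOpen V) ∧ (Set.univ : Set X) ∉ U n ∧
        ∀ F : Finset X, ∃ V ∈ U n, (↑F : Set X) ⊆ V) →
    ∃ f : ℕ → Set X, (∀ n, f n ∈ U n) ∧
      ((∀ V ∈ Set.range f, IsOpen V) ∧ (Set.univ : Set X) ∉ Set.range f ∧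
        (∀ x : X, {W : Set X | W ∈ Set.range f ∧ x ∈ W}.Infinite) ∧
        ∀ x y : X,
          ({W : Set X | W ∈ Set.range f ∧ x ∈ W} \
              {W : Set X | W ∈ Set.range f ∧ y ∈ W}).Finite ∨
          ({W : Set X | W ∈ Set.range f ∧ y ∈ W} \
              {W : Set X | W ∈ Set.range f ∧ x ∈ W}).Finite)

/-- Selection lemma: an index version of `S₁(Ω,T)`, outside a countable set of points. -/
theorem selection {X : Type} [MetricSpace X] (h : S1OT X) (x0 : X)
    (hx0 : ∀ ε > 0, ∀ F : Finset X, ∃ p, p ∉ F ∧ p ≠ x0 ∧ dist p x0 < ε)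
    (𝒲 : ℕ → Set (Set X))
    (h𝒲 : ∀ n, (∀ V ∈ 𝒲 n, IsOpen V) ∧ ∀ F : Finset X, ∃ V ∈ 𝒲 n, (↑F : Set X) ⊆ V) :
    ∃ (W : ℕ → Set X) (P : Set X), (∀ n, W n ∈ 𝒲 n) ∧ P.Countable ∧
      (∀ x, x ∉ P → {n | x ∈ W n}.Infinite) ∧
      ∀ x, x ∉ P → ∀ y, y ∉ P →
        {n | x ∈ W n ∧ y ∉ W n}.Finite ∨ {n | y ∈ W n ∧ x ∉ W n}.Finite := by
  classical
  let U : ℕ → Set (Set X) := fun n =>
    {S | ∃ W ∈ 𝒲 n, ∃ p : X, x0 ∈ W ∧ p ≠ x0 ∧ dist p x0 < 1 / ((n : ℝ) + 1) ∧ S = W \ {p}}
  have hU : ∀ n, (∀ V ∈ U n, IsOpen V) ∧ (Set.univ : Set X) ∉ U n ∧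
        ∀ F : Finset X, ∃ V ∈ U n, (↑F : Set X) ⊆ V := by
    intro n
    refine ⟨?_, ?_, ?_⟩
    · rintro V ⟨W, hW, p, -, -, -, rfl⟩
      exact ((h𝒲 n).1 W hW).sdiff isClosed_singleton
    · rintro ⟨W, hW, p, -, -, -, hp⟩
      have : p ∈ (Set.univ : Set X) := mem_univ p
      rw [hp] at this
      exact this.2 rfl
    · intro F
      obtain ⟨W, hW, hFW⟩ := (h𝒲 n).2 (insert x0 F)
      obtain ⟨p, hpF, hp0, hpd⟩ := hx0 (1 / ((n : ℝ) + 1)) (by positivity) F
      refine ⟨W \ {p}, ⟨W, hW, p, hFW (by simp), hp0, hpd, rfl⟩, ?_⟩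
      intro y hy
      refine ⟨hFW (by simp [Finset.mem_coe.1 hy]), ?_⟩
      rintro rfl
      exact hpF (Finset.mem_coe.1 hy)
  obtain ⟨f, hf, hfo, -, hfi, hfl⟩ := h U hU
  choose W hW p hx0W hp0 hpd hfe using hf
  -- finite-to-one
  have hfin : ∀ S : Set X, {n | f n = S}.Finite := by
    intro S
    by_contra hS
    have hS : {n | f n = S}.Infinite := hS
    obtain ⟨n0, hn0⟩ := hS.nonempty
    have hSo : IsOpen S := by
      rw [← hn0]; exact hfo _ ⟨n0, rfl⟩
    have hx0S : x0 ∈ S := by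
      rw [← hn0, hfe n0]
      exact ⟨hx0W n0, fun h' => hp0 n0 (by simpa using h'.symm)⟩
    obtain ⟨ε, hε, hball⟩ := Metric.isOpen_iff.1 hSo x0 hx0S
    obtain ⟨N, hN⟩ := exists_nat_one_div_lt hε
    obtain ⟨n, hn, hNn⟩ := hS.exists_gt N
    have h1 : p n ∈ S := by
      apply hball
      rw [Metric.mem_ball]
      refine (hpd n).trans (lt_of_le_of_lt ?_ hN)
      apply one_div_le_one_div_of_le (by positivity)
      have : (N : ℝ) ≤ n := by exact_mod_cast hNn.le
      linarith
    have hn' : f n = S := hn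
    rw [← hn', hfe n] at h1
    exact h1.2 rfl
  -- traces
  have hmem : ∀ x, x ∉ Set.range p → ∀ n, (x ∈ f n ↔ x ∈ W n) := by
    intro x hx n
    rw [hfe n]
    constructor
    · exact fun h => h.1
    · intro h'
      exact ⟨h', fun h'' => hx ⟨n, (by simpa using h''.symm)⟩⟩
  refine ⟨W, Set.range p, hW, Set.countable_range p, ?_, ?_⟩
  · intro x hx hfi'
    apply hfi x
    have : {W : Set X | W ∈ Set.range f ∧ x ∈ W} ⊆ f '' {n | x ∈ W n} := by
      rintro S ⟨⟨n, rfl⟩, hxS⟩
      exact ⟨n, (hmem x hx n).1 hxS, rfl⟩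
    exact (hfi'.image f).subset this
  · intro x hx y hy
    have key : ∀ a b : X, a ∉ Set.range p → b ∉ Set.range p →
        ({W : Set X | W ∈ Set.range f ∧ a ∈ W} \
              {W : Set X | W ∈ Set.range f ∧ b ∈ W}).Finite →
        {n | a ∈ W n ∧ b ∉ W n}.Finite := by
      intro a b ha hb hfi'
      have hsub : {n | a ∈ W n ∧ b ∉ W n} ⊆
          ⋃ S ∈ ({W : Set X | W ∈ Set.range f ∧ a ∈ W} \
              {W : Set X | W ∈ Set.range f ∧ b ∈ W}), {n | f n = S} := by
        rintro n ⟨h1, h2⟩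
        simp only [mem_iUnion]
        refine ⟨f n, ⟨⟨⟨n, rfl⟩, (hmem a ha n).2 h1⟩, ?_⟩, rfl⟩
        rintro ⟨-, h3⟩
        exact h2 ((hmem b hb n).1 h3)
      exact (hfi'.biUnion (fun S _ => hfin S)).subset hsub
    rcases hfl x y with h1 | h1
    · exact Or.inl (key x y hx hy h1)
    · exact Or.inr (key y x hy hx h1)

section Bounded

variable {X : Type} (f : X → ℕ → ℕ)

/-- A set of points whose functions are bounded mod finite by a single function. -/
def Bdd (S : Set X) : Prop := ∃ h : ℕ → ℕ, ∀ x ∈ S, ∀ᶠ n in atTop, f x n ≤ h n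

theorem Bdd.mono {f : X → ℕ → ℕ} {S T : Set X} (hT : Bdd f T) (hST : S ⊆ T) : Bdd f S := by
  obtain ⟨h, hh⟩ := hT
  exact ⟨h, fun x hx => hh x (hST hx)⟩

theorem Bdd.iUnion {f : X → ℕ → ℕ} {S : ℕ → Set X} (hS : ∀ i, Bdd f (S i)) :
    Bdd f (⋃ i, S i) := by
  choose h hh using hS
  refine ⟨fun n => (Finset.range (n + 1)).sup (fun i => h i n), ?_⟩
  intro x hx
  obtain ⟨i, hi⟩ := mem_iUnion.1 hx
  filter_upwards [hh i x hi, eventually_ge_atTop i] with n hn hin
  refine hn.trans ?_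
  exact Finset.le_sup (f := fun i => h i n) (Finset.mem_range.2 (by omega))

theorem Bdd.union {f : X → ℕ → ℕ} {S T : Set X} (hS : Bdd f S) (hT : Bdd f T) :
    Bdd f (S ∪ T) := by
  obtain ⟨h, hh⟩ := hS
  obtain ⟨h', hh'⟩ := hT
  refine ⟨fun n => max (h n) (h' n), ?_⟩
  rintro x (hx | hx)
  · filter_upwards [hh x hx] with n hn using hn.trans (le_max_left _ _)
  · filter_upwards [hh' x hx] with n hn using hn.trans (le_max_right _ _)

theorem Bdd.singleton (f : X → ℕ → ℕ) (x : X) : Bdd f {x} :=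
  ⟨f x, by rintro y rfl; exact Eventually.of_forall fun n => le_rfl⟩

theorem Bdd.empty (f : X → ℕ → ℕ) : Bdd f ∅ := ⟨fun _ => 0, by simp⟩

theorem Bdd.countable (f : X → ℕ → ℕ) {S : Set X} (hS : S.Countable) : Bdd f S := by
  rcases S.eq_empty_or_nonempty with rfl | hne
  · exact Bdd.empty f
  · obtain ⟨e, he⟩ := hS.exists_eq_range hne
    have : S = ⋃ i, {e i} := by
      rw [he]; ext y; simp [eq_comm]
    rw [this]
    exact Bdd.iUnion fun i => Bdd.singleton f (e i)

end Bounded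

/-- first coordinate of the `n`-th pair -/
def kk (n : ℕ) : ℕ := (Nat.unpair (Nat.unpair n).1).1
/-- second coordinate of the `n`-th pair -/
def aa (n : ℕ) : ℕ := (Nat.unpair (Nat.unpair n).1).2
/-- code of the `n`-th pair -/
def cc (n : ℕ) : ℕ := (Nat.unpair n).1

theorem kk_le (n : ℕ) : kk n ≤ n :=
  (Nat.unpair_left_le _).trans (Nat.unpair_left_le _)

theorem cc_infinite (u : ℕ) : {n | cc n = u}.Infinite := by
  have : Function.Injective (fun v => Nat.pair u v) := by
    intro v w h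
    have := congrArg (fun n => (Nat.unpair n).2) h
    simpa using this
  refine (Set.infinite_range_of_injective this).mono ?_
  rintro _ ⟨v, rfl⟩
  simp [cc]

theorem kk_eq (n : ℕ) : kk n = (Nat.unpair (cc n)).1 := rfl
theorem aa_eq (n : ℕ) : aa n = (Nat.unpair (cc n)).2 := rfl

/-- Main combinatorial theorem. -/
theorem bounded {X : Type} [MetricSpace X] (h : S1OT X) (x0 : X)
    (hx0 : ∀ ε > 0, ∀ F : Finset X, ∃ p, p ∉ F ∧ p ≠ x0 ∧ dist p x0 < ε)
    (f : X → ℕ → ℕ) (hf : ∀ n m, IsClopen {x | f x n < m}) (hmono : ∀ x, Monotone (f x)) :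
    Bdd f Set.univ := by
  classical
  let 𝒲 : ℕ → Set (Set X) := fun n =>
    {W | ∃ m ≥ n, W = {x | f x n < m} ∪ {x | (∀ i < kk n, f x i < aa n) ∧ m ≤ f x (kk n)}}
  have h𝒲 : ∀ n, (∀ V ∈ 𝒲 n, IsOpen V) ∧ ∀ F : Finset X, ∃ V ∈ 𝒲 n, (↑F : Set X) ⊆ V := by
    intro n
    constructor
    · rintro V ⟨m, -, rfl⟩
      refine (hf n m).isOpen.union ?_
      have h1 : IsOpen {x | ∀ i < kk n, f x i < aa n} := by
        have : {x | ∀ i < kk n, f x i < aa n} = ⋂ i ∈ Finset.range (kk n), {x | f x i < aa n} := by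
          ext x; simp
        rw [this]
        exact isOpen_biInter_finset fun i _ => (hf i _).isOpen
      have h2 : IsOpen {x | m ≤ f x (kk n)} := by
        have : {x | m ≤ f x (kk n)} = {x | f x (kk n) < m}ᶜ := by
          ext x; simp
        rw [this]
        exact (hf _ _).compl.isOpen
      exact h1.inter h2
    · intro F
      refine ⟨_, ⟨max n (F.sup (fun x => f x n) + 1), le_max_left _ _, rfl⟩, ?_⟩
      intro x hx
      left
      have : f x n ≤ F.sup (fun x => f x n) := Finset.le_sup (f := fun x => f x n) hx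
      exact lt_of_lt_of_le (Nat.lt_succ_of_le this) (le_max_right _ _)
  obtain ⟨W, P, hW, hP, hinf, hlin⟩ := selection h x0 hx0 𝒲 h𝒲
  choose g hgn hWg using hW
  -- membership
  have hmem : ∀ n x, x ∈ W n ↔ (f x n < g n ∨ ((∀ i < kk n, f x i < aa n) ∧ g n ≤ f x (kk n))) := by
    intro n x
    rw [hWg n]; rfl
  -- Claim 1
  have claim1 : ∀ D : Set ℕ, D.Infinite → Bdd f {x | {n | n ∈ D ∧ x ∉ W n}.Finite} := by
    intro D hD
    by_cases hk : ∀ j, ∃ n ∈ D, j < kk n
    · choose t htD htk using hk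
      refine ⟨fun j => max (g (t j)) (aa (t j)), ?_⟩
      intro x hx
      obtain ⟨N, hN⟩ := hx.bddAbove
      filter_upwards [eventually_ge_atTop N] with j hj
      have hlt : N < t j := lt_of_le_of_lt hj ((htk j).trans_le (kk_le _))
      have hmemW : x ∈ W (t j) := by
        by_contra hcon
        have : t j ≤ N := hN ⟨htD j, hcon⟩
        omega
      rcases (hmem _ _).1 hmemW with h1 | ⟨h1, -⟩
      · refine le_trans ?_ (le_max_left _ _)
        exact ((hmono x ((htk j).le.trans (kk_le _))).trans_lt h1).le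
      · exact (h1 j (htk j)).le.trans (le_max_right _ _)
    · push Not at hk
      obtain ⟨j0, hj0⟩ := hk
      -- pigeonhole
      have : ∃ k, {n | n ∈ D ∧ kk n = k}.Infinite := by
        by_contra hcon
        push Not at hcon
        have hsub : D ⊆ ⋃ k ∈ Finset.range (j0 + 1), {n | n ∈ D ∧ kk n = k} := by
          intro n hn
          simp only [mem_iUnion]
          exact ⟨kk n, Finset.mem_range.2 (Nat.lt_succ_of_le (hj0 n hn)), hn, rfl⟩
        refine hD (Set.Finite.subset ?_ hsub)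
        exact Set.Finite.biUnion (Finset.finite_toSet _) (fun k _ => by
          simpa using hcon k)
      obtain ⟨k, hk⟩ := this
      have hex : ∀ j, ∃ n, (n ∈ D ∧ kk n = k) ∧ j < n := fun j => hk.exists_gt j
      choose t ht1 ht2 using hex
      refine ⟨fun j => g (t j), ?_⟩
      intro x hx
      obtain ⟨N, hN⟩ := hx.bddAbove
      filter_upwards [eventually_ge_atTop N, eventually_ge_atTop (f x k)] with j hj hj2
      have hmemW : x ∈ W (t j) := by
        by_contra hcon
        have h1 : t j ≤ N := hN ⟨(ht1 j).1, hcon⟩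
        have h2 := ht2 j
        omega
      rcases (hmem _ _).1 hmemW with h1 | ⟨-, h1⟩
      · exact ((hmono x (ht2 j).le).trans_lt h1).le
      · exfalso
        rw [(ht1 j).2] at h1
        have h2 := hgn (t j)
        have h3 := ht2 j
        omega
  -- Claim 2
  have claim2 : ∀ y, y ∉ P → (∀ u, {n | y ∉ W n ∧ cc n = u}.Infinite) →
      Bdd f {x | {n | x ∈ W n ∧ y ∉ W n}.Finite} := by
    intro y hy hS
    have hex : ∀ N u, ∃ n, (y ∉ W n ∧ cc n = u) ∧ N < n := fun N u => (hS u).exists_gt N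
    choose t ht1 ht2 using hex
    -- recursively defined bound
    let H : ℕ → ℕ → ℕ := fun N k =>
      Nat.rec (motive := fun _ => ℕ) (g (t N (Nat.pair 0 0)))
        (fun k b => max b (g (t N (Nat.pair (k + 1) b)))) k
    have hsub : {x | {n | x ∈ W n ∧ y ∉ W n}.Finite} ⊆ ⋃ N, {x | ∀ k, f x k < H N k} := by
      intro x hx
      obtain ⟨N, hN⟩ := hx.bddAbove
      refine mem_iUnion.2 ⟨N, ?_⟩
      have step : ∀ k b, (∀ i < k, f x i < b) → f x k < g (t N (Nat.pair k b)) := by
        intro k b hb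
        have h1 := ht1 N (Nat.pair k b)
        have h2 := ht2 N (Nat.pair k b)
        have hkk : kk (t N (Nat.pair k b)) = k := by rw [kk_eq, h1.2]; simp
        have haa : aa (t N (Nat.pair k b)) = b := by rw [aa_eq, h1.2]; simp
        have hnot : x ∉ W (t N (Nat.pair k b)) := by
          intro hcon
          have : t N (Nat.pair k b) ≤ N := hN ⟨hcon, h1.1⟩
          omega
        rw [hmem, hkk, haa] at hnot
        by_contra hcon
        push Not at hcon
        exact hnot (Or.inr ⟨hb, hcon⟩)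
      intro k
      induction k with
      | zero => exact step 0 0 (by simp)
      | succ k ih =>
        have h1 : f x (k + 1) < g (t N (Nat.pair (k + 1) (H N k))) := by
          apply step
          intro i hi
          exact (hmono x (Nat.lt_succ_iff.1 hi)).trans_lt ih
        exact lt_of_lt_of_le h1 (le_max_right _ _)
    refine Bdd.mono ?_ hsub
    refine Bdd.iUnion fun N => ⟨H N, ?_⟩
    intro x hx
    exact Eventually.of_forall fun n => (hx n).le
  -- combine
  have hmain : Bdd f Pᶜ := by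
    by_cases hcase1 : ∃ y, y ∉ P ∧ ∀ u, {n | y ∉ W n ∧ cc n = u}.Infinite
    · obtain ⟨y, hy, hS⟩ := hcase1
      refine Bdd.mono ((claim2 y hy hS).union (claim1 {n | y ∈ W n} (hinf y hy))) ?_
      intro x hx
      rcases hlin x hx y hy with h1 | h1
      · exact Or.inl h1
      · exact Or.inr h1
    · push Not at hcase1
      by_cases hcase2 : ∃ u, ∀ y, y ∉ P → {n | y ∉ W n ∧ cc n = u}.Finite
      · obtain ⟨u, hu⟩ := hcase2
        refine Bdd.mono (claim1 {n | cc n = u} (cc_infinite u)) ?_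
        intro x hx
        refine (hu x hx).subset ?_
        rintro n ⟨h1, h2⟩
        exact ⟨h2, h1⟩
      · push Not at hcase2
        choose z hzP hz using hcase2
        refine Bdd.mono (Bdd.iUnion fun u => claim1 {n | z u ∈ W n} (hinf _ (hzP u))) ?_
        intro x hx
        obtain ⟨u, hu⟩ := hcase1 x hx
        refine mem_iUnion.2 ⟨u, ?_⟩
        rcases hlin x hx (z u) (hzP u) with h1 | h1
        · exfalso
          apply hz u
          refine (h1.union hu).subset ?_
          rintro n ⟨h2, h3⟩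
          by_cases h4 : x ∈ W n
          · exact Or.inl ⟨h4, h2⟩
          · exact Or.inr ⟨h4, h3⟩
        · exact h1
  refine Bdd.mono (hmain.union (Bdd.countable f hP)) ?_
  intro x _
  by_cases hx : x ∈ P
  · exact Or.inr hx
  · exact Or.inl hx

end Pool.Agent.H14.Tau
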