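import Pool.Agent.H14.TauHurewicz

set_option autoImplicit false

namespace Pool.Agent.H14.Tau

open Set Filter Topology MeasureTheory

/-- A set of reals with `S₁(Ω,T)` contains no interval. -/
theorem noInterval (X : Set ℝ) (h : S1OT X) (a b : ℝ) (hab : a < b) :
    ∃ c ∈ Ioo a b, c ∉ X := by
  by_contra hcon
  push Not at hcon
  have hvol : (volume (Ioo a b) : ENNReal) ≠ 0 := by
    rw [Real.volume_Ioo]
    simpa using hab
  obtain ⟨ε, hεpos, hεsum⟩ := ENNReal.exists_pos_sum_of_countable' hvol ℕ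
  have hεle : ∀ n, ε n < volume (Ioo a b) := fun n =>
    lt_of_le_of_lt (ENNReal.le_tsum n) hεsum
  let U : ℕ → Set (Set X) := fun n =>
    {V | ∃ O : Set ℝ, IsOpen O ∧ volume O < ε n ∧ V = Subtype.val ⁻¹' O}
  have hU : ∀ n, (∀ V ∈ U n, IsOpen V) ∧ (Set.univ : Set X) ∉ U n ∧
        ∀ F : Finset X, ∃ V ∈ U n, (↑F : Set X) ⊆ V := by
    intro n
    refine ⟨?_, ?_, ?_⟩
    · rintro V ⟨O, hO, -, rfl⟩
      exact hO.preimage continuous_subtype_val
    · rintro ⟨O, hO, hvO, hV⟩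
      have hsub : Ioo a b ⊆ O := by
        intro c hc
        have : (⟨c, hcon c hc⟩ : X) ∈ (Set.univ : Set X) := mem_univ _
        rw [hV] at this
        exact this
      have := (measure_mono (μ := volume) hsub).trans_lt (hvO.trans (hεle n))
      exact lt_irrefl _ this
    · intro F
      have hz : volume (Subtype.val '' (F : Set X) : Set ℝ) < ε n := by
        rw [((Finset.finite_toSet F).image _).measure_zero]
        exact hεpos n
      obtain ⟨O, hFO, hO, hvO⟩ := Set.exists_isOpen_lt_of_lt _ _ hz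
      refine ⟨_, ⟨O, hO, hvO, rfl⟩, ?_⟩
      intro x hx
      exact hFO ⟨x, hx, rfl⟩
  obtain ⟨f, hf, -, -, hfi, -⟩ := h U hU
  choose O hO hvO hfO using hf
  have hsub : Ioo a b ⊆ ⋃ n, O n := by
    intro c hc
    obtain ⟨W, ⟨n, rfl⟩, hxW⟩ := (hfi ⟨c, hcon c hc⟩).nonempty
    rw [hfO n] at hxW
    exact mem_iUnion.2 ⟨n, hxW⟩
  have h1 : volume (Ioo a b) ≤ ∑' n, ε n :=
    ((measure_mono hsub).trans (measure_iUnion_le _)).trans
      (ENNReal.tsum_le_tsum fun n => (hvO n).le)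
  exact lt_irrefl _ (h1.trans_lt hεsum)

/-- A countable clopen basis of such a set. -/
theorem exists_basis (X : Set ℝ) (h : ∀ a b : ℝ, a < b → ∃ c ∈ Ioo a b, c ∉ X) :
    ∃ B : ℕ → Set X, (∀ i, IsClopen (B i)) ∧
      ∀ (x : X) (V : Set X), IsOpen V → x ∈ V → ∃ i, x ∈ B i ∧ B i ⊆ V := by
  have h' : ∀ r s : ℚ, ∃ c : ℝ, (r < s → c ∈ Ioo (r : ℝ) s) ∧ c ∉ X := by
    intro r s
    by_cases hrs : r < s
    · obtain ⟨c, hc, hcX⟩ := h r s (by exact_mod_cast hrs)
      exact ⟨c, fun _ => hc, hcX⟩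
    · obtain ⟨c, hc, hcX⟩ := h 0 1 one_pos
      exact ⟨c, fun h => absurd h hrs, hcX⟩
  choose c hc hcX using h'
  obtain ⟨e, he⟩ := exists_surjective_nat ((ℚ × ℚ) × (ℚ × ℚ))
  refine ⟨fun i => Subtype.val ⁻¹' (Ioo (c (e i).1.1 (e i).1.2) (c (e i).2.1 (e i).2.2)), ?_, ?_⟩
  · intro i
    refine ⟨?_, isOpen_Ioo.preimage continuous_subtype_val⟩
    have : (Subtype.val ⁻¹' (Ioo (c (e i).1.1 (e i).1.2) (c (e i).2.1 (e i).2.2)) : Set X)
        = Subtype.val ⁻¹' (Icc (c (e i).1.1 (e i).1.2) (c (e i).2.1 (e i).2.2)) := by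
      ext x
      constructor
      · rintro ⟨h1, h2⟩
        exact ⟨h1.le, h2.le⟩
      · rintro ⟨h1, h2⟩
        refine ⟨lt_of_le_of_ne h1 ?_, lt_of_le_of_ne h2 ?_⟩
        · intro heq; exact hcX (e i).1.1 (e i).1.2 (heq ▸ x.2)
        · intro heq; exact hcX (e i).2.1 (e i).2.2 (heq ▸ x.2)
    show IsClosed (Subtype.val ⁻¹' (Ioo (c (e i).1.1 (e i).1.2) (c (e i).2.1 (e i).2.2)) : Set X)
    rw [this]
    exact isClosed_Icc.preimage continuous_subtype_val
  · intro x V hV hx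
    obtain ⟨O, hO, rfl⟩ := isOpen_induced_iff.1 hV
    obtain ⟨ε, hε, hball⟩ := Metric.isOpen_iff.1 hO x.1 hx
    obtain ⟨r1, hr1, hr1'⟩ := exists_rat_btwn (show x.1 - ε < x.1 by linarith)
    obtain ⟨s1, hs1, hs1'⟩ := exists_rat_btwn hr1'
    obtain ⟨s2, hs2, hs2'⟩ := exists_rat_btwn (show x.1 < x.1 + ε by linarith)
    obtain ⟨r2, hr2, hr2'⟩ := exists_rat_btwn hs2
    obtain ⟨i, hi⟩ := he ((r1, s1), (r2, s2))
    have h1 := hc r1 s1 (by exact_mod_cast hs1)
    have h2 := hc r2 s2 (by exact_mod_cast hr2')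
    refine ⟨i, ?_, ?_⟩
    · simp only [hi, mem_preimage, mem_Ioo]
      exact ⟨h1.2.trans hs1', hr2.trans h2.1⟩
    · intro y hy
      simp only [hi, mem_preimage, mem_Ioo] at hy
      apply hball
      rw [Metric.mem_ball, Real.dist_eq, abs_lt]
      constructor
      · linarith [h1.1, hy.1]
      · linarith [h2.2, hy.2]

/-- `S₁(Ω,T)` implies the Hurewicz property, for sets of reals. -/
theorem hurewicz (X : Set ℝ) (h : S1OT X) (U : ℕ → Set (Set X))
    (hU : ∀ n, (∀ V ∈ U n, IsOpen V) ∧ ⋃₀ U n = Set.univ) :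
    ∃ F : ℕ → Finset (Set X), (∀ n, (↑(F n) : Set (Set X)) ⊆ U n) ∧
      ∀ x : X, ∀ᶠ n in Filter.atTop, x ∈ ⋃₀ (↑(F n) : Set (Set X)) := by
  classical
  obtain ⟨B, hB, hBbasis⟩ := exists_basis X (fun a b hab => noInterval X h a b hab)
  have hex : ∀ n (x : X), ∃ i, x ∈ B i ∧ ∃ V ∈ U n, B i ⊆ V := by
    intro n x
    have : x ∈ ⋃₀ U n := by rw [(hU n).2]; exact mem_univ x
    obtain ⟨V, hV, hxV⟩ := this
    obtain ⟨i, hi, hiV⟩ := hBbasis x V ((hU n).1 V hV) hxV
    exact ⟨i, hi, V, hV, hiV⟩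
  let c : ℕ → X → ℕ := fun n x => Nat.find (hex n x)
  have hc : ∀ n x, x ∈ B (c n x) ∧ ∃ V ∈ U n, B (c n x) ⊆ V := fun n x => Nat.find_spec (hex n x)
  have hcmin : ∀ n x i, i < c n x → ¬ (x ∈ B i ∧ ∃ V ∈ U n, B i ⊆ V) := fun n x i hi =>
    Nat.find_min (hex n x) hi
  -- local constancy
  have hcont : ∀ n, Continuous (c n) := by
    intro n
    apply IsLocallyConstant.continuous
    rw [IsLocallyConstant.iff_exists_open]
    intro x
    refine ⟨B (c n x) ∩ ⋂ i ∈ (Finset.range (c n x)).filter (fun i => ∃ V ∈ U n, B i ⊆ V), (B i)ᶜ,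
      ?_, ?_, ?_⟩
    · exact (hB _).isOpen.inter (isOpen_biInter_finset fun i _ => (hB i).compl.isOpen)
    · refine ⟨(hc n x).1, ?_⟩
      simp only [mem_iInter, Finset.mem_filter, Finset.mem_range]
      rintro i ⟨hi, hV⟩ hxi
      exact hcmin n x i hi ⟨hxi, hV⟩
    · rintro y ⟨hy1, hy2⟩
      simp only [mem_iInter, Finset.mem_filter, Finset.mem_range] at hy2
      apply le_antisymm
      · exact Nat.find_min' (hex n y) ⟨hy1, (hc n x).2⟩
      · by_contra hlt
        push Not at hlt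
        exact hy2 (c n y) ⟨hlt, (hc n y).2⟩ (hc n y).1
  let f : X → ℕ → ℕ := fun x n => ∑ i ∈ Finset.range (n + 1), c i x
  have hfcont : ∀ n, Continuous (fun x => f x n) := fun n =>
    continuous_finsetSum _ fun i _ => hcont i
  have hfclopen : ∀ n m, IsClopen {x | f x n < m} := fun n m =>
    (isClopen_discrete (Set.Iio m)).preimage (hfcont n)
  have hfmono : ∀ x, Monotone (f x) := by
    intro x
    apply monotone_nat_of_le_succ
    intro n
    exact Finset.sum_le_sum_of_subset (by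
      intro i hi; simp only [Finset.mem_range] at hi ⊢; omega)
  have hcf : ∀ n x, c n x ≤ f x n := fun n x =>
    Finset.single_le_sum (f := fun i => c i x) (fun _ _ => Nat.zero_le _)
      (Finset.mem_range.2 (Nat.lt_succ_self n))
  have hbdd : Bdd f Set.univ := by
    by_cases hx : ∃ x0 : X, ¬ IsOpen ({x0} : Set X)
    · obtain ⟨x0, hx0⟩ := hx
      refine bounded h x0 ?_ f hfclopen hfmono
      intro ε hε F
      by_contra hcon
      push Not at hcon
      apply hx0
      have : ({x0} : Set X) = Metric.ball x0 ε ∩ ((↑(F.erase x0) : Set X))ᶜ := by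
        ext p
        constructor
        · rintro rfl
          exact ⟨Metric.mem_ball_self hε, by simp⟩
        · rintro ⟨h1, h2⟩
          by_contra hne
          have hne' : p ≠ x0 := hne
          have hpF : p ∉ F := by
            intro hpF
            apply h2
            simp [hne', hpF]
          exact absurd (Metric.mem_ball.1 h1) (not_lt.2 (hcon p hpF hne'))
      rw [this]
      exact Metric.isOpen_ball.inter (F.erase x0).finite_toSet.isClosed.isOpen_compl
    · push Not at hx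
      have : DiscreteTopology X := discreteTopology_iff_isOpen_singleton.2 hx
      have : Countable X := countable_of_Lindelof_of_discrete
      exact Bdd.countable f (Set.countable_univ)
  obtain ⟨g, hg⟩ := hbdd
  have hV : ∀ n i, ∃ V : Set X, (∃ V' ∈ U n, B i ⊆ V') → (V ∈ U n ∧ B i ⊆ V) := by
    intro n i
    by_cases hgood : ∃ V' ∈ U n, B i ⊆ V'
    · obtain ⟨V', h1, h2⟩ := hgood
      exact ⟨V', fun _ => ⟨h1, h2⟩⟩
    · exact ⟨∅, fun h' => absurd h' hgood⟩
  choose V hV using hV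
  refine ⟨fun n => ((Finset.range (g n + 1)).filter (fun i => ∃ V' ∈ U n, B i ⊆ V')).image (V n),
    ?_, ?_⟩
  · intro n S hS
    simp only [Finset.coe_image, Finset.coe_filter, mem_image, mem_ofPred_eq] at hS
    obtain ⟨i, ⟨-, hi⟩, rfl⟩ := hS
    exact (hV n i hi).1
  · intro x
    filter_upwards [hg x (mem_univ x)] with n hn
    have hle : c n x ≤ g n := (hcf n x).trans hn
    refine ⟨V n (c n x), ?_, ?_⟩
    · simp only [Finset.coe_image, Finset.coe_filter, mem_image, mem_ofPred_eq]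
      exact ⟨c n x, ⟨Finset.mem_range.2 (by omega), (hc n x).2⟩, rfl⟩
    · exact (hV n _ (hc n x).2).2 (hc n x).1

end Pool.Agent.H14.Tau
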